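import Pool.Agent.H74.BP.Plane

/-!
# The plane theorem in terms of the number of the conditions
-/

namespace Pool.Agent.H74.BP

open Finset Pool.Agent.H18.Cub Pool.Agent.H18.Pr Pool.Agent.H18.Fat Pool.Agent.H18.Ub
  Pool.Agent.H18.Nef

theorem imposes_of_zero {r d k : ℕ} (hr : 1 ≤ r) (m : Fin k → ℕ) (h : generalDim r d m = 0) :
    ForGeneralPoints r k fun p => ImposesMaximalConditions r d p m := by
  refine (generalDim_spec r d m).mono fun p hp => ?_
  have h1 := Pool.Agent.H74.CT.generalDim_ge hr d m
  unfold ImposesMaximalConditions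
  rw [hp, h]
  rw [h] at h1
  rw [max_eq_left (by exact_mod_cast h1)]
  rfl

/-- The plane: at most nine arbitrary multiplicities and points of medium multiplicity. -/
theorem plane_T : ∃ K E : ℕ, ∀ M : ℕ, 1 ≤ M → ∀ (k d μ : ℕ) (m : Fin k → ℕ)
    (J : Finset (Fin k)), (∀ i, i ∉ J → m i ≤ μ) →
    (∀ S : Finset (Fin k), S.card ≤ 3 → ∑ i ∈ S, m i ≤ d) → K * M ^ E ≤ d →
    (J.card ≤ 8 ∧ (μ ≤ M ∨
        (K * M ^ E + μ ≤ d ∧ ∑ i ∈ univ.filter (fun i => i ∈ J ∨ M < m i), (m i + 1).choose 2 ≤
          (d - K * M ^ E - μ + 2).choose 2) ∨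
        (d + μ + 1).choose 2 ≤
          ∑ i ∈ univ.filter (fun i => i ∈ J ∨ M < m i), (m i + 1).choose 2) ∨
      J.card = 9 ∧ μ ≤ M ∧ ∑ i ∈ J, m i + K * M ^ E ≤ 3 * d) →
    ForGeneralPoints 2 k fun p => ImposesMaximalConditions 2 d p m := by
  classical
  obtain ⟨K₁, E₁, h₁⟩ := plane_med
  obtain ⟨K₂, E₂, h₂⟩ := Pool.Agent.H18.Ta.plane
  refine ⟨K₁ + K₂, E₁ + E₂, fun M hM k d μ m J hμ hstd hd hor => ?_⟩
  have hK1 : K₁ * M ^ E₁ ≤ (K₁ + K₂) * M ^ (E₁ + E₂) :=
    Nat.mul_le_mul (Nat.le_add_right _ _) (Nat.pow_le_pow_right hM (Nat.le_add_right _ _))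
  have hK2 : K₂ * M ^ E₂ ≤ (K₁ + K₂) * M ^ (E₁ + E₂) :=
    Nat.mul_le_mul (Nat.le_add_left _ _) (Nat.pow_le_pow_right hM (Nat.le_add_left _ _))
  set R := (K₁ + K₂) * M ^ (E₁ + E₂) with hR
  -- the number of the conditions
  have hT : ∑ i ∈ univ.filter (fun i => i ∈ J ∨ M < m i), (m i + 1).choose 2 =
      ∑ i ∈ J, (m i + 2 - 1).choose 2 + len 2 m (univ.filter fun i => i ∉ J ∧ M < m i) := by
    unfold len
    rw [← sum_union]
    · refine sum_congr ?_ fun i _ => rfl
      ext i
      rw [mem_filter, mem_union, mem_filter]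
      have := mem_univ i
      tauto
    · rw [disjoint_left]
      intro i hi1 hi2
      exact (mem_filter.1 hi2).2.1 hi1
  rcases hor with ⟨hJ8, hor⟩ | ⟨hJ9, hμM, hsum⟩
  · rcases hor with hμM | ⟨hRμ, hor⟩ | hor
    · refine h₁ M hM k d μ m J hJ8 hμ hstd (hK1.trans hd) (Or.inl ?_)
      unfold len
      rw [filter_eq_empty_iff.2, sum_empty]
      intro i _ hi
      have := hμ i hi.1
      omega
    · refine h₁ M hM k d μ m J hJ8 hμ hstd (hK1.trans hd) (Or.inr ⟨d - R - μ, by omega, ?_⟩)
      have hge := Pool.Agent.H74.CT.dim_ge 0 (d - R - μ) k m J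
      rw [hT] at hor
      have e1 : (generalDim 2 (d - R - μ) fun i => if i ∈ J then m i else 0) +
          ∑ i ∈ J, (m i + 2 - 1).choose 2 ≥ (d - R - μ + 2).choose 2 := hge
      omega
    · -- too many conditions
      rcases Nat.eq_zero_or_pos μ with h0 | h0
      · refine h₁ M hM k d μ m J hJ8 hμ hstd (hK1.trans hd) (Or.inl ?_)
        unfold len
        rw [filter_eq_empty_iff.2, sum_empty]
        intro i _ hi
        have := hμ i hi.1
        omega
      · refine imposes_of_zero (by norm_num) m ?_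
        have hJdim : (generalDim 2 (d + μ - 1) fun i => if i ∈ J then m i else 0) ≤
            (d + μ + 1).choose 2 - ∑ i ∈ J, (m i + 2 - 1).choose 2 := by
          have h3 := h₂ 1 le_rfl k (d + μ - 1) (fun i => if i ∈ J then m i else 0) J
            (hJ8.trans (by norm_num)) (fun i hi => by rw [if_neg hi]; exact Nat.zero_le _)
            (fun S hS => by
              refine le_trans (sum_le_sum fun i _ => ?_) ((hstd S hS).trans (by omega))
              split_ifs
              · exact le_rfl
              · exact Nat.zero_le _) (by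
              have h4 : 1 ≤ M ^ E₂ := Nat.one_le_pow _ _ hM
              have h5 : K₂ * 1 ≤ K₂ * M ^ E₂ := Nat.mul_le_mul_left _ h4
              rw [one_pow]
              omega) (fun h => by omega)
          obtain ⟨p, hp1, hp2⟩ := Pool.Agent.H18.Cub.exists_of_general
            (h3.and (generalDim_spec 2 (d + μ - 1) fun i => if i ∈ J then m i else 0))
          unfold ImposesMaximalConditions at hp1
          have h2 : ∑ i, (((if i ∈ J then m i else 0) + 2 - 1).choose 2 : ℤ) =
              ((∑ i ∈ J, (m i + 2 - 1).choose 2 : ℕ) : ℤ) := by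
            push_cast
            rw [← sum_subset (subset_univ J)]
            · exact sum_congr rfl fun i hi => by rw [if_pos hi]
            · intro i _ hi
              rw [if_neg hi]
              rfl
          have h6 : d + μ - 1 + 2 = d + μ + 1 := by omega
          rw [hp2, h2, h6] at hp1
          omega
        have hlenS : len 2 m (univ.filter fun i => i ∉ J ∧ M < m i) ≤
            len 2 m (univ.filter fun i => i ∉ J) := by
          unfold len
          refine sum_le_sum_of_subset fun i hi => ?_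
          rw [mem_filter] at hi ⊢
          exact ⟨hi.1, hi.2.1⟩
        rw [hT] at hor
        have hS : (generalDim 2 (d + μ - 1) fun i => if i ∈ J then m i else 0) ≤
            len 2 m (univ.filter fun i => i ∉ J) := by omega
        have hmax := max_elem 2 μ le_rfl k d m J hμ (Or.inr ⟨⟨d + μ - 1, by omega, hS⟩, h0⟩)
        have hle : (generalDim 2 d fun i => if i ∈ J then m i else 0) ≤
            generalDim 2 (d + μ - 1) fun i => if i ∈ J then m i else 0 :=
          generalDim_deg (fun i => if i ∈ J then m i else 0) (by omega)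
        obtain ⟨p, hp1, hp2⟩ := Pool.Agent.H18.Cub.exists_of_general
          (hmax.and (generalDim_spec 2 d m))
        rw [hp2, max_eq_left (by omega)] at hp1
        exact_mod_cast hp1
  · exact h₂ M hM k d m J hJ9.le (fun i hi => (hμ i hi).trans hμM) hstd (hK2.trans hd)
      fun _ => by omega

end Pool.Agent.H74.BP
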