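import Pool.Agent.H74.BP.Dec
import Pool.Agent.H18.Nef.NefA

/-!
# Reduction to the large multiplicities
-/

namespace Pool.Agent.H74.BP

open Finset Pool.Agent.H18.Fat Pool.Agent.H18.Ub Pool.Agent.H22.LU Pool.Agent.H74.CT

/-- If the points of `J` impose maximal conditions and the others impose maximal conditions on the forms
with the given multiplicities on `J`, then all points impose maximal conditions. -/
theorem imposes_of_max {r d k : ℕ} (hr : 1 ≤ r) (m : Fin k → ℕ) (J : Finset (Fin k))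
    (hmax : Max r d m J)
    (h : ForGeneralPoints r k fun p =>
      ImposesMaximalConditions r d p fun i => if i ∈ J then m i else 0) :
    ForGeneralPoints r k fun p => ImposesMaximalConditions r d p m := by
  classical
  refine ((hmax.and h).and (generalDim_spec r d fun i => if i ∈ J then m i else 0)).mono
    fun p hp => ?_
  obtain ⟨⟨hp1, hp2⟩, hp3⟩ := hp
  unfold ImposesMaximalConditions at hp2 ⊢
  rw [hp3] at hp2
  have h1 : ∑ i, (((if i ∈ J then m i else 0) + r - 1).choose r : ℤ) =
      ∑ i ∈ J, ((m i + r - 1).choose r : ℤ) := by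
    rw [← sum_subset (subset_univ J)]
    · exact sum_congr rfl fun i hi => by rw [if_pos hi]
    · intro i _ hi
      rw [if_neg hi, Nat.choose_eq_zero_of_lt (by omega)]
      rfl
  have h2 : ∑ i, ((m i + r - 1).choose r : ℤ) = ∑ i ∈ J, ((m i + r - 1).choose r : ℤ) +
      (len r m (univ.filter fun i => i ∉ J) : ℤ) := by
    rw [len_cast, ← sum_filter_add_sum_filter_not univ (fun i => i ∈ J)
      (fun i => ((m i + r - 1).choose r : ℤ))]
    congr 1
    refine sum_congr ?_ fun _ _ => rfl
    ext i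
    simp
  rw [hp1, hp2, h1, h2]
  have h3 : (0 : ℤ) ≤ (len r m (univ.filter fun i => i ∉ J) : ℤ) := Int.natCast_nonneg _
  omega

/-- Reduction to the large multiplicities, away from the boundary of the effective cone. -/
theorem reduction (r M : ℕ) (hr : 2 ≤ r) (hM : 1 ≤ M) (ε : ℝ) (hε : 0 < ε) : ∃ d₀ : ℕ,
    ∀ (k d : ℕ) (m : Fin k → ℕ) (J : Finset (Fin k)), d₀ ≤ d →
      (∀ i, i ∈ J ↔ ε / 2 * d < (m i : ℝ)) →
      (∃ j : ℕ, (j : ℝ) ≤ (1 - ε) * d ∧ 0 < generalDim r j fun i => if M < m i then m i else 0) →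
      J.card ≤ ⌈2 / ε⌉₊ ^ r ∧ (∀ i ∈ J, (m i : ℝ) ≤ (1 - ε) * d) ∧
      ((ForGeneralPoints r k fun p =>
        ImposesMaximalConditions r d p fun i => if i ∈ J then m i else 0) →
        ForGeneralPoints r k fun p => ImposesMaximalConditions r d p m) := by
  classical
  obtain ⟨d₀, hd₀⟩ := max_big r M hr hM ε hε
  obtain ⟨d₁, hd₁⟩ := exists_nat_ge (2 * M / ε + 1)
  refine ⟨d₀ + d₁, fun k d m J hd hJ he => ?_⟩
  obtain ⟨j, hj1, hj2⟩ := he
  have hdd : (2 * M / ε + 1 : ℝ) ≤ d := hd₁.trans (by exact_mod_cast (by omega : d₁ ≤ d))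
  have hMd : (M : ℝ) < ε / 2 * d := by
    have h1 : 2 * M / ε < (d : ℝ) := by linarith
    rw [div_lt_iff₀ hε] at h1
    linarith
  have hmedJ : ∀ i, i ∈ med M m J ↔ M < m i := by
    intro i
    unfold med
    rw [mem_union, mem_filter]
    constructor
    · rintro (h1 | h1)
      · exact_mod_cast hMd.trans ((hJ i).1 h1)
      · exact h1.2
    · intro h1
      exact Or.inr ⟨mem_univ i, h1⟩
  have heq : (fun i => if i ∈ med M m J then m i else 0) = fun i => if M < m i then m i else 0 := by
    funext i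
    by_cases hi : M < m i
    · rw [if_pos hi, if_pos ((hmedJ i).2 hi)]
    · rw [if_neg hi, if_neg fun h => hi ((hmedJ i).1 h)]
  obtain ⟨hmax, hcard⟩ := hd₀ k d m J (by omega) (fun i hi => by
    by_contra hcon
    push Not at hcon
    exact hi ((hJ i).2 hcon)) ⟨j, hj1, by rw [heq]; exact hj2⟩
  refine ⟨?_, fun i hi => ?_, imposes_of_max (by omega) m J hmax⟩
  · have h1 : {i : Fin k | ε / 2 * d < (m i : ℝ)} = (J : Set (Fin k)) := by
      ext i
      exact (hJ i).symm
    rw [h1, Set.ncard_coe_finset] at hcard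
    exact hcard
  · have h1 := Pool.Agent.H18.Nef.le_of_effective _ (Nat.one_le_iff_ne_zero.2 hj2.ne') i
    have h2 : M < m i := (hmedJ i).1 (med_sub M m J hi)
    rw [if_pos h2] at h1
    have h3 : (m i : ℝ) ≤ j := by exact_mod_cast h1
    exact h3.trans hj1

end Pool.Agent.H74.BP
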