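import Pool.Agent.H74.BP.Sg

/-!
# The growth condition for big classes
-/

namespace Pool.Agent.H74.BP

open MvPolynomial Pool.Agent.H18.Fat Pool.Agent.H18.Ub Pool.Agent.H22.LU Pool.Agent.H74.CT

theorem big_growth_fin (s a : ℕ) (hs : 1 ≤ s) (C E T : ℕ) (hE : 1 ≤ E) (hT : 1 ≤ T) :
    ∃ d₀ : ℕ, ∀ d, d₀ ≤ d → ∀ m : Fin a → ℕ,
      (∃ e, T * e + d ≤ T * d ∧ 1 ≤ generalDim (s + 1) e m) →
      E * ((generalDim (s + 1) d m - generalDim (s + 1) (d - 1) m) -
        (generalDim (s + 1) (d - C) m - generalDim (s + 1) (d - C - 1) m)) ≤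
      generalDim (s + 1) d m - generalDim (s + 1) (d - 1) m := by
  classical
  obtain ⟨f, hf⟩ := exists_surjective_nat (ℕ × (Fin a → ℕ))
  obtain ⟨p, hp⟩ := exists_veryGeneral (r := s + 1) (k := a) (P := fun n p =>
    Module.finrank ℂ (fatForms (s + 1) (f n).1 p (f n).2) = generalDim (s + 1) (f n).1 (f n).2 ∧
      ∀ i, p i 0 ≠ 0) fun n =>
    (generalDim_spec (s + 1) (f n).1 (f n).2).and
      (Pool.Agent.H18.Pr.general_ne_zero (s + 1) a)
  have hp0 : ∀ l, p l 0 ≠ 0 := (hp 0).2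
  have hdim : ∀ (d : ℕ) (m : Fin a → ℕ),
      Module.finrank ℂ (fatForms (s + 1) d p m) = generalDim (s + 1) d m := by
    intro d m
    obtain ⟨n, hn⟩ := hf (d, m)
    have h1 := (hp n).1
    rw [hn] at h1
    exact h1
  have hsem := sem_GS hp0
  obtain ⟨d₁, h1⟩ := hsem.slow hs (fun m α h => GS_le m α h) C E T hE hT
  refine ⟨d₁ + C + 1, fun d hd m hm => ?_⟩
  obtain ⟨e, he, hpos⟩ := hm
  have hne : fatForms (s + 1) e p m ≠ ⊥ := by
    intro h
    rw [← hdim, h, finrank_bot] at hpos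
    omega
  obtain ⟨F, hF, hF0⟩ := Submodule.exists_mem_ne_zero_of_ne_bot hne
  obtain ⟨β, hβ1, hβ2⟩ := exists_GS hp0 m e ⟨F, hF, hF0⟩
  have h2 := h1 d (by omega) m ⟨β, hβ1, by
    have : T * ∑ i, β i ≤ T * e := Nat.mul_le_mul_left _ hβ2
    omega⟩
  obtain ⟨d', rfl⟩ : ∃ d', d = d' + 1 := ⟨d - 1, by omega⟩
  obtain ⟨d'', hd''⟩ : ∃ d'', d' + 1 - C = d'' + 1 := ⟨d' + 1 - C - 1, by omega⟩
  have h3 := ncard_GS hp0 m d'
  have h4 := ncard_GS hp0 m d''
  rw [hdim, hdim] at h3 h4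
  rw [hd''] at h2 ⊢
  have e1 : d' + 1 - 1 = d' := rfl
  have e2 : d'' + 1 - 1 = d'' := rfl
  rw [e1, e2]
  have h5 : generalDim (s + 1) (d' + 1) m - generalDim (s + 1) d' m =
      {α : Fin (s + 1) → ℕ | ∑ i, α i = d' + 1 ∧ GS p (fun l => (m l : ℤ)) α}.ncard := by omega
  have h6 : generalDim (s + 1) (d'' + 1) m - generalDim (s + 1) d'' m =
      {α : Fin (s + 1) → ℕ | ∑ i, α i = d'' + 1 ∧ GS p (fun l => (m l : ℤ)) α}.ncard := by omega
  rw [h5, h6]
  exact h2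

theorem fatForms_pad (r j : ℕ) {k a : ℕ} (p : Fin k → Fin (r + 1) → ℂ) (m : Fin k → ℕ)
    (J : Finset (Fin k)) (hJ : J.card = a) :
    fatForms r j p (fun i => if i ∈ J then m i else 0) =
      fatForms r j (fun l => p (J.orderEmbOfFin hJ l)) (fun l => m (J.orderEmbOfFin hJ l)) := by
  ext F
  constructor
  · rintro ⟨h1, h2⟩
    refine ⟨h1, fun l => ?_⟩
    have h3 := h2 (J.orderEmbOfFin hJ l)
    dsimp only at h3
    rw [if_pos (J.orderEmbOfFin_mem hJ l)] at h3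
    exact h3
  · rintro ⟨h1, h2⟩
    refine ⟨h1, fun i => ?_⟩
    dsimp only
    by_cases hi : i ∈ J
    · rw [if_pos hi]
      have h3 : i ∈ Set.range (J.orderEmbOfFin hJ) := by
        rw [Finset.range_orderEmbOfFin]
        exact hi
      obtain ⟨l, rfl⟩ := h3
      exact h2 l
    · rw [if_neg hi]
      exact vanishes_zero _ _

theorem generalDim_pad (r j : ℕ) {k a : ℕ} (m : Fin k → ℕ) (J : Finset (Fin k))
    (hJ : J.card = a) :
    generalDim r j (fun i => if i ∈ J then m i else 0) =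
      generalDim r j (fun l => m (J.orderEmbOfFin hJ l)) := by
  classical
  unfold generalDim
  congr 1
  ext x
  constructor
  · rintro ⟨p, hp⟩
    refine ⟨fun l => p (J.orderEmbOfFin hJ l), ?_⟩
    rw [← fatForms_pad]
    exact hp
  · rintro ⟨p', hp'⟩
    refine ⟨Function.extend (J.orderEmbOfFin hJ) p' fun _ => 0, ?_⟩
    rw [fatForms_pad r j _ m J hJ]
    have h1 : (fun l => Function.extend (J.orderEmbOfFin hJ) p' (fun _ => 0)
        (J.orderEmbOfFin hJ l)) = p' := by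
      funext l
      exact (J.orderEmbOfFin hJ).injective.extend_apply _ _ _
    rw [h1]
    exact hp'

/-- The growth condition for big classes, uniformly in the multiplicities. -/
theorem big_growth (r a : ℕ) (hr : 2 ≤ r) (C E T : ℕ) (hE : 1 ≤ E) (hT : 1 ≤ T) :
    ∃ d₀ : ℕ, ∀ d, d₀ ≤ d → ∀ (k : ℕ) (m : Fin k → ℕ) (J : Finset (Fin k)), J.card ≤ a →
      ∀ h : ℕ → ℕ, (∀ j, h j = generalDim r j fun i => if i ∈ J then m i else 0) →
      (∃ e, T * e + d ≤ T * d ∧ 1 ≤ h e) →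
      E * ((h d - h (d - 1)) - (h (d - C) - h (d - C - 1))) ≤ h d - h (d - 1) := by
  obtain ⟨s, rfl⟩ : ∃ s, r = s + 1 := ⟨r - 1, by omega⟩
  choose f hf using fun a => big_growth_fin s a (by omega) C E T hE hT
  refine ⟨(Finset.range (a + 1)).sup f, fun d hd k m J hJ h hh he => ?_⟩
  have h1 : f J.card ≤ d := (Finset.le_sup (f := f) (Finset.mem_range.2 (by omega))).trans hd
  have h2 : ∀ j, h j = generalDim (s + 1) j fun l => m (J.orderEmbOfFin rfl l) := fun j => by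
    rw [hh, generalDim_pad (s + 1) j m J rfl]
  obtain ⟨e, he1, he2⟩ := he
  rw [h2] at he2
  rw [h2, h2, h2, h2]
  exact hf J.card d h1 _ ⟨e, he1, he2⟩

end Pool.Agent.H74.BP
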