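import Pool.Agent.H74.CT.Grid

/-!
# A form of degree `e < s m` has fewer than `s ^ r` general points of multiplicity `m`
-/

namespace Pool.Agent.H74.BP

open MvPolynomial Pool.Agent.H18.Fat Pool.Agent.H18.Ub Pool.Agent.H22.LU Pool.Agent.H74.CT

theorem perf_le {r s e n : ℕ} (hs : 0 < s) (b : Fin r → Fin s) (h : e < s * n) :
    perf e b ≤ n := by
  unfold perf
  split_ifs
  · have h1 : (e - gsum b) / s ≤ e / s := Nat.div_le_div_right (Nat.sub_le _ _)
    have h2 : e / s < n := (Nat.div_lt_iff_lt_mul hs).2 (by rwa [Nat.mul_comm])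
    omega
  · exact Nat.zero_le _

theorem few_big (r s : ℕ) (hr : 1 ≤ r) (hs : 1 ≤ s) (k e : ℕ) (m : Fin k → ℕ)
    (J : Finset (Fin k)) (hJ : ∀ i ∈ J, e < s * m i)
    (hpos : 1 ≤ generalDim r e fun i => if i ∈ J then m i else 0) : J.card < s ^ r := by
  classical
  by_contra hcon
  push Not at hcon
  have hζ := Complex.isPrimitiveRoot_exp s (by omega)
  set ζ := Complex.exp (2 * Real.pi * Complex.I / (s : ℂ)) with hζdef
  have hcard : Fintype.card (Fin r → Fin s) ≤ Fintype.card J := by
    rw [Fintype.card_fun, Fintype.card_fin, Fintype.card_fin, Fintype.card_coe]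
    exact hcon
  obtain ⟨ψ⟩ := Function.Embedding.nonempty_of_card_le hcard
  set φ : (Fin r → Fin s) → Fin k := fun b => (ψ b).1 with hφ
  have hφi : Function.Injective φ := fun b b' h => ψ.injective (Subtype.ext h)
  set p₀ : Fin k → Fin (r + 1) → ℂ := Function.extend φ (fun b => gridPt ζ b) fun _ => 0 with hp₀
  have h1 : fatForms r e p₀ (fun i => if i ∈ J then m i else 0) = ⊥ := by
    have h2 : fatForms r e (fun b : Fin r → Fin s => gridPt ζ b) (perf e) = ⊥ := by
      have h3 := finrank_of_surjective hr (fun b : Fin r → Fin s => gridPt_ne ζ b)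
        (grid_surjective e hr (by omega) hζ)
      rw [sum_perf hr (by omega)] at h3
      have h4 : Module.finrank ℂ (fatForms r e (fun b : Fin r → Fin s => gridPt ζ b) (perf e)) = 0 :=
        Nat.add_left_cancel (h3.trans (Nat.add_zero _).symm)
      have := fin_fatForms r e (fun b : Fin r → Fin s => gridPt ζ b) (perf e)
      exact Submodule.finrank_eq_zero.1 h4
    rw [eq_bot_iff, ← h2]
    intro F hF
    refine ⟨hF.1, fun b => ?_⟩
    have h3 := hF.2 (φ b)
    dsimp only at h3
    rw [if_pos (ψ b).2, hp₀, hφi.extend_apply] at h3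
    exact van_mono h3 (perf_le (by omega) b (hJ _ (ψ b).2))
  have h2 : generalDim r e (fun i => if i ∈ J then m i else 0) ≤ 0 := by
    refine Nat.sInf_le ⟨p₀, ?_⟩
    rw [h1, finrank_bot]
  omega

end Pool.Agent.H74.BP
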