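import Pool.Agent.H74.BP.Big
import Pool.Agent.H74.BP.Few
import Pool.Agent.H74.CT.Lp
import Pool.Agent.H18.Ua.UFinal

/-!
# The large part
-/

namespace Pool.Agent.H74.BP

open Finset Pool.Agent.H18.Fat Pool.Agent.H18.Pr Pool.Agent.H18.Ub Pool.Agent.H18.Ua

/-- The points outside `J` impose maximal conditions, if `J` imposes independent conditions in a
slightly smaller degree. -/
theorem dim_of_indep (r M : ℕ) (hr : 2 ≤ r) (hM : 1 ≤ M) (k d' : ℕ) (m' : Fin k → ℕ)
    (J : Finset (Fin k)) (hJ : ∀ i, i ∉ J → m' i ≤ M) (hD : 300 * r * M ^ (r + 4) ≤ d')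
    (hyp : ((generalDim r (d' - 300 * r * M ^ (r + 4)) fun i => if i ∈ J then m' i else 0) : ℤ) =
      ((d' - 300 * r * M ^ (r + 4) + r).choose r : ℤ) - ∑ i ∈ J, ((m' i + r - 1).choose r : ℤ)) :
    ForGeneralPoints r k fun p => (Module.finrank ℂ (fatForms r d' p m') : ℤ) =
      max 0 (((generalDim r d' fun i => if i ∈ J then m' i else 0) : ℤ) -
        ∑ i ∈ univ.filter (fun i => i ∉ J), ((m' i + r - 1).choose r : ℤ)) := by
  classical
  set D := 300 * r * M ^ (r + 4) with hDdef
  have hDU : DU r M = D := rfl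
  have hspec := generalDim_spec r (d' - D) fun i => if i ∈ J then m' i else 0
  have hind : ForGeneralPoints r k fun p =>
      (Module.finrank ℂ (fatForms r (d' - DU r M) p fun i => if i ∈ J then m' i else 0) : ℤ) =
        ((d' - DU r M + r).choose r : ℤ) - ∑ i ∈ J, ((m' i + r - 1).choose r : ℤ) := by
    refine hspec.mono fun p hp => ?_
    rw [hDU, hp]
    exact hyp
  have h1 := ua_main r hr M hM k d' m' J hJ (by omega) hind
  -- the points of `J` alone
  have h2 := ua_main r hr M hM k d' (fun i => if i ∈ J then m' i else 0) J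
    (fun i hi => by
      rw [if_neg hi]
      exact Nat.zero_le _) (by omega)
    (hind.mono fun p hp => by
      have h3 : (fun i => if i ∈ J then (if i ∈ J then m' i else 0) else 0) =
          fun i => if i ∈ J then m' i else 0 := by
        funext i
        by_cases hi : i ∈ J
        · simp [hi]
        · simp [hi]
      have h4 : ∑ i ∈ J, (((if i ∈ J then m' i else 0) + r - 1).choose r : ℤ) =
          ∑ i ∈ J, ((m' i + r - 1).choose r : ℤ) :=
        sum_congr rfl fun i hi => by rw [if_pos hi]
      rw [h3, hp]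
      exact congrArg _ h4.symm)
  have hsum : ∑ i, (((if i ∈ J then m' i else 0) + r - 1).choose r : ℤ) =
      ∑ i ∈ J, ((m' i + r - 1).choose r : ℤ) := by
    rw [← sum_filter_add_sum_filter_not univ (fun i => i ∈ J)
      (fun i => (((if i ∈ J then m' i else 0) + r - 1).choose r : ℤ))]
    have h3 : ∑ i ∈ univ.filter (fun i => i ∉ J),
        (((if i ∈ J then m' i else 0) + r - 1).choose r : ℤ) = 0 := by
      apply sum_eq_zero
      intro i hi
      rw [if_neg (mem_filter.1 hi).2, Nat.choose_eq_zero_of_lt (by omega)]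
      rfl
    rw [h3, add_zero]
    have h4 : univ.filter (fun i => i ∈ J) = J := by
      ext i
      simp
    rw [h4]
    exact sum_congr rfl fun i hi => by rw [if_pos hi]
  have hall : ∑ i, ((m' i + r - 1).choose r : ℤ) = ∑ i ∈ J, ((m' i + r - 1).choose r : ℤ) +
      ∑ i ∈ univ.filter (fun i => i ∉ J), ((m' i + r - 1).choose r : ℤ) := by
    rw [← sum_filter_add_sum_filter_not univ (fun i => i ∈ J)
      (fun i => ((m' i + r - 1).choose r : ℤ))]
    have h4 : univ.filter (fun i => i ∈ J) = J := by
      ext i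
      simp
    rw [h4]
  have hd' : ((generalDim r d' fun i => if i ∈ J then m' i else 0) : ℤ) =
      ((d' + r).choose r : ℤ) - ∑ i ∈ J, ((m' i + r - 1).choose r : ℤ) := by
    obtain ⟨p, hp1, hp2⟩ := Pool.Agent.H18.Cub.exists_of_general
      (h2.and (generalDim_spec r d' fun i => if i ∈ J then m' i else 0))
    unfold ImposesMaximalConditions at hp1
    rw [hp2, hsum] at hp1
    have h5 : ((d' - D + r).choose r : ℤ) ≤ ((d' + r).choose r : ℤ) := by
      exact_mod_cast Nat.choose_le_choose r (by omega)
    have h6 : (0 : ℤ) ≤ ((generalDim r (d' - D) fun i => if i ∈ J then m' i else 0) : ℤ) :=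
      Int.natCast_nonneg _
    rw [max_eq_right (by omega)] at hp1
    exact hp1
  refine h1.mono fun p hp => ?_
  unfold ImposesMaximalConditions at hp
  rw [hp, hd', hall]
  congr 1
  ring

/-- The number of the points with large multiplicities. -/
theorem card_le_of_form (r T : ℕ) (hr : 1 ≤ r) (hT : 1 ≤ T) (k a d e : ℕ) (m : Fin k → ℕ)
    (J : Finset (Fin k)) (hed : e < d)
    (ha : (J.filter fun i => T * m i < d).card ≤ a)
    (he : 1 ≤ generalDim r e fun i => if i ∈ J then m i else 0) : J.card ≤ a + T ^ r := by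
  classical
  set J' := J.filter fun i => ¬ T * m i < d with hJ'
  have h1 : J'.card ≤ T ^ r := by
    have h2 : ∀ i ∈ J', i ∈ J ∧ d ≤ T * m i := fun i hi => by
      rw [hJ', mem_filter] at hi
      exact ⟨hi.1, by omega⟩
    refine (few_big r T hr hT k e m J' (fun i hi => lt_of_lt_of_le hed (h2 i hi).2) ?_).le
    refine he.trans ?_
    obtain ⟨q, hq1, hq2⟩ := Pool.Agent.H18.Cub.exists_of_general
      ((generalDim_spec r e fun i => if i ∈ J then m i else 0).and
        (generalDim_spec r e fun i => if i ∈ J' then m i else 0))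
    rw [← hq1, ← hq2]
    have := Pool.Agent.H74.CT.fin_fatForms r e q fun i => if i ∈ J' then m i else 0
    refine Submodule.finrank_mono fun F hF => ⟨hF.1, fun i => ?_⟩
    have h5 := hF.2 i
    dsimp only at h5 ⊢
    by_cases hi : i ∈ J'
    · rw [if_pos (h2 i hi).1] at h5
      rw [if_pos hi]
      exact h5
    · rw [if_neg hi]
      exact Pool.Agent.H22.LU.vanishes_zero _ _
  have h2 : (J.filter fun i => T * m i < d).card + J'.card = J.card := by
    rw [hJ']
    convert card_filter_add_card_filter_not (s := J) (fun i => T * m i < d) using 3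
  omega

end Pool.Agent.H74.BP
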