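import Pool.Agent.H74.CT.Near2
import Pool.Agent.H74.CT.Jump

/-!
# The elementary two-sided bound

If some form of degree `e` has the given multiplicities, then a further general point of multiplicity at
most `d - e + 1` imposes independent conditions in degree `d`.  Hence points of multiplicity at most `M`,
of total length `S`, impose independent conditions on the forms of degree `d` with multiplicities `m` on
`J`, if `S ≤ h(d - M + 1)`, and no such form has them, if `S ≥ h(d + M - 1)`.
-/

namespace Pool.Agent.H74.BP

open MvPolynomial Pool.Agent.H18.Fat Pool.Agent.H18.Ub Pool.Agent.H22.LU Pool.Agent.H74.CT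

/-- Larger multiplicities, smaller dimension. -/
theorem generalDim_anti {r d k : ℕ} {w w' : Fin k → ℕ} (h : ∀ i, w i ≤ w' i) :
    generalDim r d w' ≤ generalDim r d w := by
  obtain ⟨p, hp1, hp2⟩ := Pool.Agent.H18.Cub.exists_of_general
    ((generalDim_spec r d w).and (generalDim_spec r d w'))
  rw [← hp1, ← hp2]
  have := fin_fatForms r d p w
  exact Submodule.finrank_mono fun F hF => ⟨hF.1, fun i => van_mono (hF.2 i) (h i)⟩

theorem generalDim_up (r j : ℕ) {k : ℕ} (w : Fin k → ℕ) :
    generalDim r j w ≤ generalDim r (j + 1) w := by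
  obtain ⟨p, hp2, hp3⟩ := Pool.Agent.H18.Cub.exists_of_general
    ((generalDim_spec r j w).and (generalDim_spec r (j + 1) w))
  rw [← hp2, ← hp3]
  exact grow_zero p w

theorem generalDim_deg {r k : ℕ} (w : Fin k → ℕ) : Monotone fun j => generalDim r j w :=
  monotone_nat_of_le_succ fun j => generalDim_up r j w

theorem simple_lt {r e k : ℕ} (w : Fin k → ℕ) (P : Fin k) (hP : w P = 0)
    (hpos : 1 ≤ generalDim r e w) :
    generalDim r e (Function.update w P 1) < generalDim r e w := by
  classical
  obtain ⟨p₀, hp₀⟩ := Pool.Agent.H18.Cub.exists_of_general (generalDim_spec r e w)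
  have hne : fatForms r e p₀ w ≠ ⊥ := by
    intro h
    rw [h, finrank_bot] at hp₀
    omega
  obtain ⟨F, hF, hF0⟩ := Submodule.exists_mem_ne_zero_of_ne_bot hne
  obtain ⟨x, hx⟩ : ∃ x, eval x F ≠ 0 := by
    by_contra hall
    push Not at hall
    apply hF0
    apply MvPolynomial.funext
    intro x
    rw [hall x, map_zero]
  set p' : Fin k → Fin (r + 1) → ℂ := Function.update p₀ P x with hp'
  have heq : fatForms r e p' w = fatForms r e p₀ w := by
    have h1 : ∀ (G : MvPolynomial (Fin (r + 1)) ℂ) (l : Fin k),
        VanishesToOrder G (p' l) (w l) ↔ VanishesToOrder G (p₀ l) (w l) := by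
      intro G l
      by_cases hl : l = P
      · rw [hl, hP]
        exact ⟨fun _ => vanishesToOrder_zero _ _, fun _ => vanishesToOrder_zero _ _⟩
      · rw [hp', Function.update_of_ne hl]
    ext G
    exact ⟨fun h => ⟨h.1, fun l => (h1 G l).1 (h.2 l)⟩, fun h => ⟨h.1, fun l => (h1 G l).2 (h.2 l)⟩⟩
  have hsub : fatForms r e p' (Function.update w P 1) < fatForms r e p' w := by
    refine lt_of_le_of_ne (fun G hG => ⟨hG.1, fun l => van_mono (hG.2 l) ?_⟩) fun h => ?_
    · by_cases hl : l = P
      · rw [hl, hP]
        exact Nat.zero_le _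
      · rw [Function.update_of_ne hl]
    · have h1 : F ∈ fatForms r e p' (Function.update w P 1) := by
        rw [h, heq]
        exact hF
      have h2 := h1.2 P
      rw [Function.update_self, vanishesToOrder_one, hp', Function.update_self] at h2
      exact hx h2
  have hfin := fin_fatForms r e p' w
  have h1 := Submodule.finrank_lt_finrank_of_lt hsub
  rw [heq, hp₀] at h1
  exact lt_of_le_of_lt (Nat.sInf_le ⟨p', rfl⟩) h1

/-- A form with the given multiplicities, not vanishing at a further point. -/
theorem exists_form {r e k : ℕ} (w : Fin k → ℕ) (P : Fin k) (hP : w P = 0)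
    (hpos : 1 ≤ generalDim r e w) :
    ForGeneralPoints r k fun p => ∃ G ∈ fatForms r e p w, eval (p P) G ≠ 0 := by
  classical
  refine ((generalDim_spec r e (Function.update w P 1)).and (generalDim_spec r e w)).mono
    fun p hp => ?_
  obtain ⟨hp1, hp2⟩ := hp
  by_contra hcon
  push Not at hcon
  have h1 : fatForms r e p w ≤ fatForms r e p (Function.update w P 1) := by
    intro G hG
    refine ⟨hG.1, fun l => ?_⟩
    by_cases hl : l = P
    · rw [hl, Function.update_self, vanishesToOrder_one]
      exact hcon G hG
    · rw [Function.update_of_ne hl]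
      exact hG.2 l
  have hfin := fin_fatForms r e p (Function.update w P 1)
  have h2 := Submodule.finrank_mono h1
  rw [hp1, hp2] at h2
  have h3 := simple_lt w P hP hpos
  omega

/-- A further point imposes independent conditions. -/
theorem add_point (s k d e a : ℕ) (w : Fin k → ℕ) (P : Fin k) (hP : w P = 0)
    (he : 1 ≤ generalDim (s + 2) e w) (hd : e + a ≤ d + 1) :
    generalDim (s + 2) d (Function.update w P a) + (a + (s + 2) - 1).choose (s + 2) ≤
      generalDim (s + 2) d w := by
  classical
  rcases Nat.eq_zero_or_pos a with ha | ha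
  · subst ha
    rw [Nat.choose_eq_zero_of_lt (by omega), Nat.add_zero]
    refine generalDim_anti fun i => ?_
    by_cases hi : i = P
    · rw [hi, hP]
      exact Nat.zero_le _
    · rw [Function.update_of_ne hi]
  obtain ⟨t, rfl⟩ : ∃ t, d = e + t := ⟨d - e, by omega⟩
  obtain ⟨p, ⟨G, hG, hGP⟩, hp1, hp2, hp3⟩ := Pool.Agent.H18.Cub.exists_of_general
    ((exists_form w P hP he).and ((generalDim_spec (s + 2) (e + t) (Function.update w P a)).and
      ((generalDim_spec (s + 2) (e + t) w).and
        (generalDim_spec (s + 2) t fun l => if l ∈ ({P} : Finset (Fin k)) then a else 0))))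
  have i1 := fin_fatForms (s + 2) t p fun _ => 0
  have i2 := fin_fatForms (s + 2) (e + t) p w
  have h1 := mulgen G (fatForms (s + 2) t p fun l => if l ∈ ({P} : Finset (Fin k)) then a else 0)
    (fatForms (s + 2) t p fun _ => 0) (fatForms (s + 2) (e + t) p (Function.update w P a))
    (fatForms (s + 2) (e + t) p w) (fun R hR => ⟨hR.1, fun l => vanishes_zero _ _⟩)
    (fun R hR => ⟨hR.1, fun l => van_mono (hR.2 l) (by
      by_cases hl : l = P
      · rw [hl, hP]
        exact Nat.zero_le _
      · rw [Function.update_of_ne hl])⟩)
    (fun R hR => ⟨hG.1.mul hR.1, fun l => van_mul (hG.2 l) (vanishes_zero (p l) R)⟩)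
    fun R hR h => ⟨hR.1, fun l => by
      dsimp only
      by_cases hl : l = P
      · subst hl
        rw [if_pos (Finset.mem_singleton_self l)]
        have h2 := h.2 l
        rw [Function.update_self] at h2
        exact van_div hGP h2
      · rw [if_neg fun h2 => hl (Finset.mem_singleton.1 h2)]
        exact vanishes_zero _ _⟩
  rw [hp1, hp2, hp3] at h1
  have h3 : (t + (s + 2)).choose (s + 2) ≤
      Module.finrank ℂ (fatForms (s + 2) t p fun _ => 0) := by
    have h4 := generalDim_ge (r := s + 2) (by omega) t (fun _ : Fin k => 0)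
    have h5 : ∀ i : Fin k, ((0 + (s + 2) - 1).choose (s + 2) : ℤ) = 0 := by
      intro i
      rw [Nat.choose_eq_zero_of_lt (by omega)]
      rfl
    have h6 : generalDim (s + 2) t (fun _ : Fin k => 0) ≤
        Module.finrank ℂ (fatForms (s + 2) t p fun _ => 0) := Nat.sInf_le ⟨p, rfl⟩
    rw [Finset.sum_congr rfl fun i _ => h5 i, Finset.sum_const_zero] at h4
    omega
  have h4 := exact2 s 0 k t (fun _ => a) {P} (Nat.zero_le _) (fun i _ => by omega) (by
    rw [Finset.card_singleton]
    have := Finset.single_le_sum (f := fun u => (s + 2).choose u) (fun _ _ => Nat.zero_le _)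
      (Finset.mem_range.2 (show 0 < 0 + 2 + 1 by omega))
    rw [Nat.choose_zero_right] at this
    exact this) (fun x hx y hy hxy => by
    rw [Finset.mem_singleton] at hx hy
    exact absurd (hx.trans hy.symm) hxy)
  rw [Finset.sum_singleton] at h4
  omega

section sum

variable {k : ℕ}

/-- The multiplicities on `J`. -/
theorem on_union (m : Fin k → ℕ) (J A : Finset (Fin k)) (P : Fin k) (hPJ : P ∉ J) (hPA : P ∉ A) :
    (fun i => if i ∈ J ∪ insert P A then m i else 0) =
      Function.update (fun i => if i ∈ J ∪ A then m i else 0) P (m P) := by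
  classical
  funext i
  by_cases hi : i = P
  · subst hi
    rw [Function.update_self, if_pos (Finset.mem_union_right _ (Finset.mem_insert_self _ _))]
  · rw [Function.update_of_ne hi]
    have : i ∈ J ∪ insert P A ↔ i ∈ J ∪ A := by
      rw [Finset.mem_union, Finset.mem_union, Finset.mem_insert]
      tauto
    simp only [this]

theorem dim_lower {r : ℕ} (hr : 1 ≤ r) (d : ℕ) (m : Fin k → ℕ) (J A : Finset (Fin k))
    (hA : Disjoint J A) :
    (generalDim r d fun i => if i ∈ J then m i else 0) ≤
      (generalDim r d fun i => if i ∈ J ∪ A then m i else 0) +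
        ∑ i ∈ A, (m i + r - 1).choose r := by
  classical
  obtain ⟨p, hp0, hp1, hp2⟩ := Pool.Agent.H18.Cub.exists_of_general
    ((Pool.Agent.H18.Pr.general_ne_zero r k).and
      ((generalDim_spec r d fun i => if i ∈ J then m i else 0).and
        (generalDim_spec r d fun i => if i ∈ J ∪ A then m i else 0)))
  have h1 := finrank_ge_add (r := r) (d := d) hr hp0 (fun i => if i ∈ J ∪ A then m i else 0) J
  have h2 : (fun i => if i ∈ J then (if i ∈ J ∪ A then m i else 0) else 0) =
      fun i => if i ∈ J then m i else 0 := by
    funext i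
    by_cases hi : i ∈ J
    · rw [if_pos hi, if_pos hi, if_pos (Finset.mem_union_left _ hi)]
    · rw [if_neg hi, if_neg hi]
  have h3 : ∑ i ∈ Finset.univ.filter (fun i => i ∉ J),
      (((if i ∈ J ∪ A then m i else 0) + r - 1).choose r : ℤ) =
        ((∑ i ∈ A, (m i + r - 1).choose r : ℕ) : ℤ) := by
    push_cast
    have h4 : A ⊆ Finset.univ.filter (fun i => i ∉ J) := fun i hi =>
      Finset.mem_filter.2 ⟨Finset.mem_univ _, fun h => Finset.disjoint_left.1 hA h hi⟩
    rw [← Finset.sum_subset h4]
    · refine Finset.sum_congr rfl fun i hi => ?_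
      rw [if_pos (Finset.mem_union_right _ hi)]
    · intro i hi1 hi2
      rw [Finset.mem_filter] at hi1
      rw [if_neg (by
        rw [Finset.mem_union]
        rintro (h3 | h3)
        · exact hi1.2 h3
        · exact hi2 h3), Nat.choose_eq_zero_of_lt (by omega)]
      rfl
  rw [h2, hp1, hp2, h3] at h1
  omega

/-- Independent conditions. -/
theorem elem_below (s d e M : ℕ) (m : Fin k → ℕ) (J A : Finset (Fin k)) (hA : Disjoint J A)
    (hM : ∀ i ∈ A, m i ≤ M) (hde : e + M ≤ d + 1)
    (hS : ∑ i ∈ A, (m i + (s + 2) - 1).choose (s + 2) ≤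
      generalDim (s + 2) e fun i => if i ∈ J then m i else 0) :
    (generalDim (s + 2) d fun i => if i ∈ J ∪ A then m i else 0) +
        ∑ i ∈ A, (m i + (s + 2) - 1).choose (s + 2) =
      generalDim (s + 2) d fun i => if i ∈ J then m i else 0 := by
  classical
  induction A using Finset.induction_on with
  | empty =>
    rw [Finset.union_empty, Finset.sum_empty, Nat.add_zero]
  | insert P A hP ih =>
    rw [Finset.disjoint_insert_right] at hA
    rw [Finset.sum_insert hP] at hS ⊢
    have ih' := ih hA.2 (fun i hi => hM i (Finset.mem_insert_of_mem hi)) (by omega)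
    have hlow := dim_lower (r := s + 2) (by omega) d m J (insert P A)
      (Finset.disjoint_insert_right.2 hA)
    rw [Finset.sum_insert hP] at hlow
    refine le_antisymm ?_ hlow
    rw [on_union m J A P hA.1 hP]
    rcases Nat.eq_zero_or_pos (m P) with h0 | h0
    · have h1 : (m P + (s + 2) - 1).choose (s + 2) = 0 := Nat.choose_eq_zero_of_lt (by omega)
      have h2 : (generalDim (s + 2) d
          (Function.update (fun i => if i ∈ J ∪ A then m i else 0) P (m P))) ≤
          generalDim (s + 2) d fun i => if i ∈ J ∪ A then m i else 0 := by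
        refine generalDim_anti fun i => ?_
        by_cases hi : i = P
        · rw [hi, Function.update_self]
          split_ifs <;> omega
        · rw [Function.update_of_ne hi]
      omega
    · have h1 : 1 ≤ (m P + (s + 2) - 1).choose (s + 2) := Nat.choose_pos (by omega)
      have h2 := dim_lower (r := s + 2) (by omega) e m J A hA.2
      have h3 := add_point s k d e (m P) (fun i => if i ∈ J ∪ A then m i else 0) P
        (if_neg (by
          rw [Finset.mem_union]
          rintro (h | h)
          · exact hA.1 h
          · exact hP h)) (by omega) (by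
        have := hM P (Finset.mem_insert_self P A)
        omega)
      omega

/-- Independent conditions in the degree `D`, if `V_d` is not zero. -/
theorem elem_above (s d D M : ℕ) (m : Fin k → ℕ) (J A : Finset (Fin k)) (hA : Disjoint J A)
    (hM : ∀ i ∈ A, m i ≤ M) (hdD : d + M ≤ D + 1)
    (hpos : 1 ≤ generalDim (s + 2) d fun i => if i ∈ J ∪ A then m i else 0) :
    (generalDim (s + 2) D fun i => if i ∈ J ∪ A then m i else 0) +
        ∑ i ∈ A, (m i + (s + 2) - 1).choose (s + 2) =
      generalDim (s + 2) D fun i => if i ∈ J then m i else 0 := by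
  classical
  induction A using Finset.induction_on with
  | empty =>
    rw [Finset.union_empty, Finset.sum_empty, Nat.add_zero]
  | insert P A hP ih =>
    rw [Finset.disjoint_insert_right] at hA
    have hpos' : 1 ≤ generalDim (s + 2) d fun i => if i ∈ J ∪ A then m i else 0 := by
      refine hpos.trans (generalDim_anti fun i => ?_)
      by_cases hi : i ∈ J ∪ A
      · have h1 : i ∈ J ∪ insert P A := by
          rw [Finset.mem_union] at hi ⊢
          rcases hi with hi | hi
          · exact Or.inl hi
          · exact Or.inr (Finset.mem_insert_of_mem hi)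
        rw [if_pos hi, if_pos h1]
      · rw [if_neg hi]
        exact Nat.zero_le _
    have ih' := ih hA.2 (fun i hi => hM i (Finset.mem_insert_of_mem hi)) hpos'
    have hlow := dim_lower (r := s + 2) (by omega) D m J (insert P A)
      (Finset.disjoint_insert_right.2 hA)
    rw [Finset.sum_insert hP] at hlow ⊢
    refine le_antisymm ?_ hlow
    rw [on_union m J A P hA.1 hP]
    have h3 := add_point s k D d (m P) (fun i => if i ∈ J ∪ A then m i else 0) P
      (if_neg (by
        rw [Finset.mem_union]
        rintro (h | h)
        · exact hA.1 h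
        · exact hP h)) hpos' (by
      have := hM P (Finset.mem_insert_self P A)
      omega)
    omega

end sum

end Pool.Agent.H74.BP
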