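import Pool.Agent.H74.BP.Int

/-!
# The number of the leading exponents grows slowly
-/

namespace Pool.Agent.H74.BP

open Finset

theorem floor_inj {N b x y : ℕ} (hN : 2 ≤ N) (hx : (x + b) % N ≠ 0) (hy : (y + b) % N ≠ 0)
    (h : x - (x + b) / N = y - (y + b) / N) (hbN : b < N) : x = y := by
  have key : ∀ x y : ℕ, x < y → (y + b) % N ≠ 0 → x - (x + b) / N < y - (y + b) / N := by
    intro x y hxy hy
    have h1 := Nat.div_add_mod (x + b) N
    have h2 := Nat.div_add_mod (y + b) N
    have h3 := Nat.mod_lt (x + b) (show 0 < N by omega)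
    have h4 := Nat.mod_lt (y + b) (show 0 < N by omega)
    have h5 : (x + b) / N ≤ x := by
      rw [Nat.div_le_iff_le_mul_add_pred (by omega)]
      have : x ≤ N * x := Nat.le_mul_of_pos_left _ (by omega)
      omega
    have h6 : (y + b) / N ≤ y := by
      rw [Nat.div_le_iff_le_mul_add_pred (by omega)]
      have : y ≤ N * y := Nat.le_mul_of_pos_left _ (by omega)
      omega
    set u := (x + b) / N
    set v := (y + b) / N
    obtain ⟨c, hc⟩ : ∃ c, N = c + 2 := ⟨N - 2, by omega⟩
    have h7 : u ≤ v := Nat.div_le_div_right (by omega)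
    obtain ⟨w, hw⟩ : ∃ w, v = u + w := ⟨v - u, by omega⟩
    have h8 : N * v = N * u + N * w := by rw [hw]; ring
    have h9 : N * w = c * w + 2 * w := by rw [hc]; ring
    rcases Nat.eq_zero_or_pos w with h0 | h0
    · subst h0
      omega
    · have h10 : c ≤ c * w := Nat.le_mul_of_pos_right _ h0
      omega
  rcases lt_trichotomy x y with h1 | h1 | h1
  · have := key x y h1 hy
    omega
  · exact h1
  · have := key y x h1 hx
    omega

theorem card_res (N x : ℕ) :
    ((range N).filter fun b => (x + b) % N = 0).card ≤ 1 := by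
  rw [card_le_one]
  intro b hb c hc
  rw [mem_filter, mem_range] at hb hc
  by_contra hne
  have h1 : (x + b) ≡ (x + c) [MOD N] := by
    unfold Nat.ModEq
    rw [hb.2, hc.2]
  have h2 := Nat.ModEq.add_left_cancel' x h1
  have h3 := Nat.ModEq.eq_of_lt_of_lt h2 hb.1 hc.1
  exact hne h3

/-- A shift with few bad exponents. -/
theorem exists_shift {r : ℕ} (N : ℕ) (hN : 1 ≤ N) (U : Finset (Fin (r + 1) → ℕ)) :
    ∃ b < N, N * (U.filter fun α => ∃ i, i ≠ 0 ∧ (α i + b) % N = 0).card ≤ r * U.card := by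
  classical
  by_contra hcon
  push Not at hcon
  have h1 : ∑ b ∈ range N, (U.filter fun α => ∃ i, i ≠ 0 ∧ (α i + b) % N = 0).card ≤
      r * U.card := by
    calc ∑ b ∈ range N, (U.filter fun α => ∃ i, i ≠ 0 ∧ (α i + b) % N = 0).card =
        ∑ b ∈ range N, ∑ α ∈ U, if ∃ i, i ≠ 0 ∧ (α i + b) % N = 0 then 1 else 0 :=
          sum_congr rfl fun b _ => card_filter _ _
      _ ≤ ∑ b ∈ range N, ∑ α ∈ U, ∑ i ∈ univ.erase (0 : Fin (r + 1)),
          if (α i + b) % N = 0 then 1 else 0 := by
        refine sum_le_sum fun b _ => sum_le_sum fun α _ => ?_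
        by_cases h : ∃ i, i ≠ 0 ∧ (α i + b) % N = 0
        · rw [if_pos h]
          obtain ⟨i, hi, h2⟩ := h
          have h3 : (if (α i + b) % N = 0 then 1 else 0) ≤ ∑ i ∈ univ.erase (0 : Fin (r + 1)),
              if (α i + b) % N = 0 then 1 else 0 :=
            single_le_sum (f := fun i => if (α i + b) % N = 0 then 1 else 0)
              (fun _ _ => Nat.zero_le _) (mem_erase.2 ⟨hi, mem_univ i⟩)
          rw [if_pos h2] at h3
          exact h3
        · rw [if_neg h]
          exact Nat.zero_le _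
      _ = ∑ α ∈ U, ∑ i ∈ univ.erase (0 : Fin (r + 1)), ∑ b ∈ range N,
          if (α i + b) % N = 0 then 1 else 0 := by
        rw [sum_comm]
        refine sum_congr rfl fun α _ => ?_
        rw [sum_comm]
      _ ≤ ∑ α ∈ U, ∑ _i ∈ univ.erase (0 : Fin (r + 1)), 1 := by
        refine sum_le_sum fun α _ => sum_le_sum fun i _ => ?_
        rw [← card_filter]
        exact card_res N (α i)
      _ = r * U.card := by
        rw [sum_const, smul_eq_mul, sum_const, smul_eq_mul, mul_one, card_erase_of_mem (mem_univ _),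
          card_univ, Fintype.card_fin, Nat.add_sub_cancel, Nat.mul_comm]
  have h2 : ∑ _b ∈ range N, r * U.card <
      ∑ b ∈ range N, N * (U.filter fun α => ∃ i, i ≠ 0 ∧ (α i + b) % N = 0).card :=
    sum_lt_sum_of_nonempty ⟨0, mem_range.2 (by omega)⟩ fun b hb => hcon b (mem_range.1 hb)
  rw [sum_const, card_range, smul_eq_mul, ← mul_sum] at h2
  exact absurd (Nat.mul_le_mul_left N h1) (by omega)

variable {a r : ℕ} {Γ : (Fin a → ℤ) → (Fin (r + 1) → ℕ) → Prop}

theorem finite_deg (r d : ℕ) : {α : Fin (r + 1) → ℕ | ∑ i, α i = d}.Finite := by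
  refine (Set.finite_Iic (fun _ : Fin (r + 1) => d)).subset fun α hα i => ?_
  have hα' : ∑ i, α i = d := hα
  rw [← hα']
  exact single_le_sum (fun _ _ => Nat.zero_le _) (mem_univ i)

/-- The number of the exponents grows slowly. -/
theorem Sem.slow (h : Sem a r Γ) (hr : 1 ≤ r)
    (hdeg : ∀ (m : Fin a → ℤ) (α : Fin (r + 1) → ℕ), Γ m α → ∀ l, m l ≤ ((∑ i, α i : ℕ) : ℤ))
    (C E T : ℕ) (hE : 1 ≤ E) (hT : 1 ≤ T) : ∃ d₀ : ℕ, ∀ d, d₀ ≤ d → ∀ m : Fin a → ℕ,
      (∃ β : Fin (r + 1) → ℕ, Γ (fun l => (m l : ℤ)) β ∧ T * ∑ i, β i + d ≤ T * d) →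
      E * ({α : Fin (r + 1) → ℕ | ∑ i, α i = d ∧ Γ (fun l => (m l : ℤ)) α}.ncard -
        {α : Fin (r + 1) → ℕ | ∑ i, α i = d - C ∧ Γ (fun l => (m l : ℤ)) α}.ncard) ≤
      {α : Fin (r + 1) → ℕ | ∑ i, α i = d ∧ Γ (fun l => (m l : ℤ)) α}.ncard := by
  classical
  set N := E * r + 2 with hN
  have hN1 : 1 ≤ N := by omega
  have hN2 : 2 ≤ N := by omega
  set K := 2 * T * (r + 1) * N with hK
  have hK1 : 1 ≤ K := Nat.one_le_iff_ne_zero.2 (by positivity)
  obtain ⟨d₁, hin⟩ := h.inside N K hN1 hK1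
  refine ⟨d₁ + 4 * T * N * (C + 4 * r + 1), fun d hd m hβ => ?_⟩
  obtain ⟨β, hβ1, hβ2⟩ := hβ
  have hfin : ∀ x : ℕ, {α : Fin (r + 1) → ℕ | ∑ i, α i = x ∧ Γ (fun l => (m l : ℤ)) α}.Finite :=
    fun x => (finite_deg r x).subset fun α hα => hα.1
  set U := (hfin d).toFinset with hU
  set V := (hfin (d - C)).toFinset with hV
  have hUc : {α : Fin (r + 1) → ℕ | ∑ i, α i = d ∧ Γ (fun l => (m l : ℤ)) α}.ncard = U.card :=
    Set.ncard_eq_toFinset_card _ (hfin d)
  have hVc : {α : Fin (r + 1) → ℕ | ∑ i, α i = d - C ∧ Γ (fun l => (m l : ℤ)) α}.ncard = V.card :=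
    Set.ncard_eq_toFinset_card _ (hfin (d - C))
  rw [hUc, hVc]
  have hUm : ∀ α, α ∈ U ↔ ∑ i, α i = d ∧ Γ (fun l => (m l : ℤ)) α := fun α => by
    rw [hU, Set.Finite.mem_toFinset]
    rfl
  have hVm : ∀ α, α ∈ V ↔ ∑ i, α i = d - C ∧ Γ (fun l => (m l : ℤ)) α := fun α => by
    rw [hV, Set.Finite.mem_toFinset]
    rfl
  obtain ⟨b, hbN, hb⟩ := exists_shift N hN1 U
  set R := d / K + 1 with hR
  have hR1 : d < K * R := by
    have := Nat.lt_mul_div_succ d (show 0 < K by omega)
    exact this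
  have hR2 : K * R ≤ d + K := by
    have := Nat.mul_div_le d K
    rw [hR, Nat.mul_add, Nat.mul_one]
    omega
  have hβd : ∑ i, β i ≤ d := by
    have h1 : T * ∑ i, β i ≤ T * d := by omega
    exact Nat.le_of_mul_le_mul_left h1 (by omega)
  -- the map
  set ψ : (Fin (r + 1) → ℕ) → Fin (r + 1) → ℕ := fun α i =>
    α i - (α i + b) / N + (β i / N + 2 + R) with hψ
  set φ : (Fin (r + 1) → ℕ) → Fin (r + 1) → ℕ := fun α i =>
    if i = 0 then d - C - ∑ i ∈ univ.erase (0 : Fin (r + 1)), ψ α i else ψ α i with hφ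
  have hψ1 : ∀ α i, (N - 1) * α i + β i + N * R ≤ N * ψ α i ∧
      N * ψ α i ≤ (N - 1) * α i + β i + N * (3 + R) := by
    intro α i
    have e1 : N * ((α i + b) / N) ≤ α i + b := Nat.mul_div_le _ _
    have e2 : α i + b < N * ((α i + b) / N) + N := by
      have := Nat.lt_mul_div_succ (α i + b) (show 0 < N by omega)
      rw [Nat.mul_succ] at this
      exact this
    have e3 : N * (β i / N) ≤ β i := Nat.mul_div_le _ _
    have e4 : β i < N * (β i / N) + N := by
      have := Nat.lt_mul_div_succ (β i) (show 0 < N by omega)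
      rw [Nat.mul_succ] at this
      exact this
    have e5 : (α i + b) / N ≤ α i := by
      rw [Nat.div_le_iff_le_mul_add_pred (by omega)]
      have : α i ≤ N * α i := Nat.le_mul_of_pos_left _ (by omega)
      omega
    have e6 : N * (α i - (α i + b) / N) = N * α i - N * ((α i + b) / N) := Nat.mul_sub _ _ _
    have e7 : N * ψ α i = (N * α i - N * ((α i + b) / N)) + N * (β i / N) + 2 * N + N * R := by
      rw [← e6]
      change N * (α i - (α i + b) / N + (β i / N + 2 + R)) = _
      ring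
    have e8 : N * α i = (N - 1) * α i + α i := by
      obtain ⟨c, hc⟩ : ∃ c, N = c + 1 := ⟨N - 1, by omega⟩
      rw [hc, Nat.add_sub_cancel]
      ring
    have e9 : N * (3 + R) = 3 * N + N * R := by ring
    have e10 : N * ((α i + b) / N) ≤ N * α i := Nat.mul_le_mul_left _ e5
    rw [e7, e9]
    constructor <;> omega
  have hφU : ∀ α ∈ U, φ α ∈ V := by
    intro α hα
    obtain ⟨hα1, hα2⟩ := (hUm α).1 hα
    -- the coordinate zero
    have f1 : ∑ i ∈ univ.erase (0 : Fin (r + 1)), N * ψ α i ≤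
        ∑ i ∈ univ.erase (0 : Fin (r + 1)), ((N - 1) * α i + β i) + r * (N * (3 + R)) := by
      calc ∑ i ∈ univ.erase (0 : Fin (r + 1)), N * ψ α i ≤
          ∑ i ∈ univ.erase (0 : Fin (r + 1)), ((N - 1) * α i + β i + N * (3 + R)) :=
            sum_le_sum fun i _ => (hψ1 α i).2
        _ = _ := by
          rw [sum_add_distrib, sum_const, card_erase_of_mem (mem_univ _), card_univ,
            Fintype.card_fin, Nat.add_sub_cancel, smul_eq_mul]
    have f2 : ∑ i ∈ univ.erase (0 : Fin (r + 1)), ((N - 1) * α i + β i) +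
        ((N - 1) * α 0 + β 0) = (N - 1) * d + ∑ i, β i := by
      rw [sum_erase_add _ _ (mem_univ _), sum_add_distrib, ← mul_sum, hα1]
    have f3 : (N - 1) * d + d = N * d := by
      obtain ⟨c, hc⟩ : ∃ c, N = c + 1 := ⟨N - 1, by omega⟩
      rw [hc, Nat.add_sub_cancel]
      ring
    have f4 : N * C + r * (N * (3 + R)) + N * R + ∑ i, β i ≤ d := by
      have g1 : T * (N * C + r * (N * (3 + R)) + N * R + ∑ i, β i) ≤ T * d := by
        have g2 : 2 * (T * (N * C + r * (N * (3 + R)) + N * R)) =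
            2 * T * N * (C + 3 * r) + K * R := by
          rw [hK]
          ring
        have g3 : 2 * T * N * (C + 3 * r) + K ≤ 4 * T * N * (C + 4 * r + 1) := by
          have g4 : 2 * T * N * (C + 3 * r) + K = T * N * (2 * C + 8 * r + 2) := by
            rw [hK]
            ring
          have g5 : 4 * T * N * (C + 4 * r + 1) = T * N * (4 * C + 16 * r + 4) := by ring
          rw [g4, g5]
          exact Nat.mul_le_mul_left _ (by omega)
        have g6 : T * (N * C + r * (N * (3 + R)) + N * R + ∑ i, β i) =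
            T * (N * C + r * (N * (3 + R)) + N * R) + T * ∑ i, β i := by ring
        rw [g6]
        omega
      exact Nat.le_of_mul_le_mul_left g1 (by omega)
    rw [← mul_sum] at f1
    have f5 : ∑ i ∈ univ.erase (0 : Fin (r + 1)), ψ α i ≤ d - C := by
      have g1 : N * ∑ i ∈ univ.erase (0 : Fin (r + 1)), ψ α i ≤ N * (d - C) := by
        rw [Nat.mul_sub]
        omega
      exact Nat.le_of_mul_le_mul_left g1 (by omega)
    have hφ0 : φ α 0 = d - C - ∑ i ∈ univ.erase (0 : Fin (r + 1)), ψ α i := if_pos rfl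
    have hφi : ∀ i, i ≠ 0 → φ α i = ψ α i := fun i hi => if_neg hi
    have hφs : ∑ i, φ α i = d - C := by
      have g1 : φ α 0 + ∑ i ∈ univ.erase (0 : Fin (r + 1)), φ α i = ∑ i, φ α i :=
        add_sum_erase univ _ (mem_univ (0 : Fin (r + 1)))
      have g2 : ∑ i ∈ univ.erase (0 : Fin (r + 1)), φ α i =
          ∑ i ∈ univ.erase (0 : Fin (r + 1)), ψ α i :=
        sum_congr rfl fun i hi => hφi i (ne_of_mem_erase hi)
      rw [← g1, g2, hφ0]
      exact Nat.sub_add_cancel f5
    rw [hVm]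
    refine ⟨hφs, ?_⟩
    have hml : ∀ l, m l ≤ d := by
      intro l
      have h1 := hdeg _ _ hα2 l
      rw [hα1] at h1
      exact_mod_cast h1
    refine hin d (by omega) m (fun i => (N - 1) * α i + β i) (φ α) hml (fun i => ?_) ?_
      fun i => ?_
    · have g1 : α i ≤ d := by
        rw [← hα1]
        exact single_le_sum (fun _ _ => Nat.zero_le _) (mem_univ i)
      have g2 : β i ≤ ∑ i, β i := single_le_sum (fun _ _ => Nat.zero_le _) (mem_univ i)
      have g3 : (N - 1) * α i ≤ (N - 1) * d := Nat.mul_le_mul_left _ g1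
      rw [← f3]
      exact Nat.add_le_add g3 (g2.trans hβd)
    · have g1 := h.add _ _ _ _ (h.nsmul hα2 (N - 1)) hβ1
      have g2 : ((N - 1) • (fun l => (m l : ℤ)) + fun l => (m l : ℤ)) =
          fun l => ((N * m l : ℕ) : ℤ) := by
        funext l
        rw [Pi.add_apply, Pi.smul_apply, nsmul_eq_mul]
        obtain ⟨c, hc⟩ : ∃ c, N = c + 1 := ⟨N - 1, by omega⟩
        rw [hc, Nat.add_sub_cancel]
        push_cast
        ring
      have g3 : ((N - 1) • α + β) = fun i => (N - 1) * α i + β i := by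
        funext i
        rw [Pi.add_apply, Pi.smul_apply, smul_eq_mul]
      rw [g2, g3] at g1
      exact g1
    · -- the inequality
      have g0 : (N - 1) * α i + β i + N * R ≤ N * φ α i := by
        by_cases hi : i = 0
        · subst hi
          rw [hφ0, Nat.mul_sub, Nat.mul_sub]
          omega
        · rw [hφi i hi]
          exact (hψ1 α i).1
      calc K * ((N - 1) * α i + β i) + N * d ≤ K * ((N - 1) * α i + β i) + N * (K * R) :=
            Nat.add_le_add_left (Nat.mul_le_mul_left _ hR1.le) _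
        _ = K * ((N - 1) * α i + β i + N * R) := by ring
        _ ≤ K * (N * φ α i) := Nat.mul_le_mul_left _ g0
        _ = K * N * φ α i := by ring
  -- injectivity on the good exponents
  set B := U.filter fun α => ∃ i, i ≠ 0 ∧ (α i + b) % N = 0 with hB
  have hcard : (U \ B).card ≤ V.card := by
    refine card_le_card_of_injOn φ (fun α hα => hφU α (mem_sdiff.1 hα).1) ?_
    intro α hα α' hα' heq
    rw [mem_coe, mem_sdiff] at hα hα'
    have hgood : ∀ α, α ∈ U → α ∉ B → ∀ i, i ≠ 0 → (α i + b) % N ≠ 0 := by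
      intro α h1 h2 i hi h3
      exact h2 (mem_filter.2 ⟨h1, i, hi, h3⟩)
    have hi : ∀ i, i ≠ 0 → α i = α' i := by
      intro i hi
      have h1 := congrFun heq i
      have h2 : φ α i = ψ α i := if_neg hi
      have h3 : φ α' i = ψ α' i := if_neg hi
      rw [h2, h3] at h1
      have h4 : α i - (α i + b) / N = α' i - (α' i + b) / N := by
        have h5 : α i - (α i + b) / N + (β i / N + 2 + R) =
            α' i - (α' i + b) / N + (β i / N + 2 + R) := h1
        omega
      exact floor_inj hN2 (hgood α hα.1 hα.2 i hi) (hgood α' hα'.1 hα'.2 i hi) h4 hbN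
    have h0 : α 0 = α' 0 := by
      have h1 := ((hUm α).1 hα.1).1
      have h2 := ((hUm α').1 hα'.1).1
      have g1 : α 0 + ∑ i ∈ univ.erase (0 : Fin (r + 1)), α i = ∑ i, α i :=
        add_sum_erase univ _ (mem_univ (0 : Fin (r + 1)))
      have g2 : α' 0 + ∑ i ∈ univ.erase (0 : Fin (r + 1)), α' i = ∑ i, α' i :=
        add_sum_erase univ _ (mem_univ (0 : Fin (r + 1)))
      have g3 : ∑ i ∈ univ.erase (0 : Fin (r + 1)), α i =
          ∑ i ∈ univ.erase (0 : Fin (r + 1)), α' i :=
        sum_congr rfl fun i hi' => hi i (ne_of_mem_erase hi')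
      omega
    funext i
    by_cases h1 : i = 0
    · rw [h1]
      exact h0
    · exact hi i h1
  have hBU : B ⊆ U := filter_subset _ _
  rw [card_sdiff_of_subset hBU] at hcard
  have h1 : E * B.card ≤ U.card := by
    have h2 : r * (E * B.card) ≤ r * U.card := by
      refine le_trans ?_ hb
      calc r * (E * B.card) = (E * r) * B.card := by ring
        _ ≤ N * B.card := Nat.mul_le_mul_right _ (by omega)
    exact Nat.le_of_mul_le_mul_left h2 (by omega)
  have h2 : U.card - V.card ≤ B.card := by omega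
  exact (Nat.mul_le_mul_left E h2).trans h1

end Pool.Agent.H74.BP
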