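import Mathlib

/-!
# Lattice points well inside the cone belong to the semigroup
-/

namespace Pool.Agent.H74.BP

open Finset

/-- The properties of the semigroup of multiplicities and leading exponents. -/
structure Sem (a r : ℕ) (Γ : (Fin a → ℤ) → (Fin (r + 1) → ℕ) → Prop) : Prop where
  add : ∀ m α m' α', Γ m α → Γ m' α' → Γ (m + m') (α + α')
  mono : ∀ m m' α, Γ m α → m' ≤ m → Γ m' α
  zero : Γ 0 0
  unit : ∀ i, Γ 0 (Pi.single i 1)
  lin : ∀ l, Γ (Pi.single l 1) (Pi.single 0 1)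

variable {a r : ℕ} {Γ : (Fin a → ℤ) → (Fin (r + 1) → ℕ) → Prop}

theorem Sem.nsmul (h : Sem a r Γ) {m : Fin a → ℤ} {α : Fin (r + 1) → ℕ} (hm : Γ m α) (n : ℕ) :
    Γ (n • m) (n • α) := by
  induction n with
  | zero =>
    rw [zero_smul, zero_smul]
    exact h.zero
  | succ n ih =>
    rw [succ_nsmul, succ_nsmul]
    exact h.add _ _ _ _ ih hm

theorem Sem.sum (h : Sem a r Γ) {ι : Type*} (s : Finset ι) (m : ι → Fin a → ℤ)
    (α : ι → Fin (r + 1) → ℕ) (hs : ∀ i ∈ s, Γ (m i) (α i)) : Γ (∑ i ∈ s, m i) (∑ i ∈ s, α i) := by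
  classical
  induction s using Finset.induction_on with
  | empty =>
    rw [sum_empty, sum_empty]
    exact h.zero
  | insert b s hb ih =>
    rw [sum_insert hb, sum_insert hb]
    exact h.add _ _ _ _ (hs b (mem_insert_self b s)) (ih fun i hi => hs i (mem_insert_of_mem hi))

theorem Sem.free (h : Sem a r Γ) (α : Fin (r + 1) → ℕ) : Γ 0 α := by
  have h1 := h.sum univ (fun i : Fin (r + 1) => α i • (0 : Fin a → ℤ))
    (fun i => α i • (Pi.single i 1 : Fin (r + 1) → ℕ)) fun i _ => h.nsmul (h.unit i) (α i)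
  have h2 : ∑ i : Fin (r + 1), α i • (0 : Fin a → ℤ) = 0 := by simp
  have h3 : ∑ i : Fin (r + 1), α i • (Pi.single i 1 : Fin (r + 1) → ℕ) = α := by
    funext j
    rw [Finset.sum_apply, sum_eq_single j]
    · rw [Pi.smul_apply, Pi.single_eq_same, smul_eq_mul, mul_one]
    · intro i _ hij
      rw [Pi.smul_apply, Pi.single_eq_of_ne (Ne.symm hij), smul_zero]
    · intro hj
      exact absurd (mem_univ j) hj
  rw [h2, h3] at h1
  exact h1

theorem Sem.easy (h : Sem a r Γ) (x : Fin a → ℤ) (ζ : Fin (r + 1) → ℕ)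
    (hx : ∑ l, max (x l) 0 ≤ (ζ 0 : ℤ)) : Γ x ζ := by
  set n : Fin a → ℕ := fun l => (x l).toNat with hn
  have hnx : ∀ l, ((n l : ℕ) : ℤ) = max (x l) 0 := fun l => Int.toNat_eq_max (x l)
  have h1 := h.sum univ (fun l : Fin a => n l • (Pi.single l 1 : Fin a → ℤ))
    (fun l => n l • (Pi.single 0 1 : Fin (r + 1) → ℕ)) fun l _ => h.nsmul (h.lin l) (n l)
  have h2 : ∑ l : Fin a, n l • (Pi.single l 1 : Fin a → ℤ) = fun l => ((n l : ℕ) : ℤ) := by
    funext j
    rw [Finset.sum_apply, sum_eq_single j]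
    · rw [Pi.smul_apply, Pi.single_eq_same, nsmul_eq_mul, mul_one]
    · intro i _ hij
      rw [Pi.smul_apply, Pi.single_eq_of_ne (Ne.symm hij), smul_zero]
    · intro hj
      exact absurd (mem_univ j) hj
  have h3 : ∑ l : Fin a, n l • (Pi.single 0 1 : Fin (r + 1) → ℕ) =
      Pi.single 0 (∑ l, n l) := by
    rw [← sum_smul]
    funext j
    by_cases hj : j = 0
    · subst hj
      rw [Pi.smul_apply, Pi.single_eq_same, Pi.single_eq_same, smul_eq_mul, mul_one]
    · rw [Pi.smul_apply, Pi.single_eq_of_ne hj, Pi.single_eq_of_ne hj, smul_zero]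
  rw [h2, h3] at h1
  have h4 : ((∑ l, n l : ℕ) : ℤ) ≤ (ζ 0 : ℤ) := by
    rw [Nat.cast_sum, sum_congr rfl fun l _ => hnx l]
    exact hx
  have h5 : ∑ l, n l ≤ ζ 0 := by exact_mod_cast h4
  have h6 := h.add _ _ _ _ h1 (h.free (ζ - Pi.single 0 (∑ l, n l)))
  have h7 : (Pi.single 0 (∑ l, n l) : Fin (r + 1) → ℕ) + (ζ - Pi.single 0 (∑ l, n l)) = ζ := by
    funext j
    rw [Pi.add_apply, Pi.sub_apply]
    by_cases hj : j = 0
    · subst hj
      rw [Pi.single_eq_same]
      omega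
    · rw [Pi.single_eq_of_ne hj]
      omega
  rw [h7, add_zero] at h6
  refine h.mono _ _ _ h6 fun l => ?_
  rw [hnx]
  exact le_max_left _ _

/-- Lattice points well inside the cone belong to the semigroup. -/
theorem Sem.inside (h : Sem a r Γ) (N K : ℕ) (hN : 1 ≤ N) (hK : 1 ≤ K) :
    ∃ d₀ : ℕ, ∀ d, d₀ ≤ d → ∀ (m : Fin a → ℕ) (γ ζ : Fin (r + 1) → ℕ), (∀ l, m l ≤ d) →
      (∀ i, γ i ≤ N * d) → Γ (fun l => ((N * m l : ℕ) : ℤ)) γ →
      (∀ i, K * γ i + N * d ≤ K * N * ζ i) → Γ (fun l => (m l : ℤ)) ζ := by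
  classical
  set L := 2 * (a + 1) * K with hL
  have hL1 : 1 ≤ L := Nat.one_le_iff_ne_zero.2 (by positivity)
  -- the realized cells
  have hcell : ∀ c : (Fin a → Fin (2 * L + 1)) × (Fin (r + 1) → Fin (2 * L + 1)), ∃ S : ℕ,
      (∃ (σ : ℕ) (x : Fin a → ℤ) (γ : Fin (r + 1) → ℕ), 1 ≤ σ ∧ Γ x γ ∧
        (∀ l, ((σ * (c.1 l : ℕ) : ℕ) : ℤ) ≤ x l) ∧ ∀ i, γ i ≤ σ * (c.2 i : ℕ)) →
      ∃ (σ : ℕ) (x : Fin a → ℤ) (γ : Fin (r + 1) → ℕ), 1 ≤ σ ∧ σ ≤ S ∧ Γ x γ ∧
        (∀ l, ((σ * (c.1 l : ℕ) : ℕ) : ℤ) ≤ x l) ∧ ∀ i, γ i ≤ σ * (c.2 i : ℕ) := by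
    intro c
    by_cases hc : ∃ (σ : ℕ) (x : Fin a → ℤ) (γ : Fin (r + 1) → ℕ), 1 ≤ σ ∧ Γ x γ ∧
        (∀ l, ((σ * (c.1 l : ℕ) : ℕ) : ℤ) ≤ x l) ∧ ∀ i, γ i ≤ σ * (c.2 i : ℕ)
    · obtain ⟨σ, x, γ, h1, h2, h3, h4⟩ := hc
      exact ⟨σ, fun _ => ⟨σ, x, γ, h1, le_rfl, h2, h3, h4⟩⟩
    · exact ⟨0, fun h1 => absurd h1 hc⟩
  choose S hS using hcell
  set S₀ := univ.sup S with hS₀
  refine ⟨4 * (a + 1) * L * K * (S₀ + 1), fun d hd m γ ζ hm hγ hΓ hζ => ?_⟩
  have hd1 : L * (4 * (S₀ + 1)) ≤ d := by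
    refine le_trans ?_ hd
    have h1 : 1 ≤ (a + 1) * K := Nat.one_le_iff_ne_zero.2 (by positivity)
    calc L * (4 * (S₀ + 1)) = (4 * L * (S₀ + 1)) * 1 := by ring
      _ ≤ (4 * L * (S₀ + 1)) * ((a + 1) * K) := Nat.mul_le_mul_left _ h1
      _ = _ := by ring
  set s := d / L with hs
  have hs1 : 4 * (S₀ + 1) ≤ s := (Nat.le_div_iff_mul_le (by omega)).2 (by rwa [Nat.mul_comm])
  have hs0 : 0 < s := by omega
  have hsL : L * s ≤ d := Nat.mul_div_le d L
  have hsL2 : d < L * (s + 1) := by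
    have := Nat.lt_mul_div_succ d (show 0 < L by omega)
    exact this
  have hLs : L ≤ L * s := Nat.le_mul_of_pos_right _ hs0
  -- the cell
  set μ : Fin a → ℕ := fun l => m l / s with hμ
  set κ : Fin (r + 1) → ℕ := fun i => (γ i + (N * s - 1)) / (N * s) with hκ
  have hNs : 0 < N * s := Nat.mul_pos (by omega) hs0
  have hμ1 : ∀ l, s * μ l ≤ m l := fun l => Nat.mul_div_le (m l) s
  have hμ2 : ∀ l, m l < s * (μ l + 1) := fun l => Nat.lt_mul_div_succ (m l) hs0
  have hμ3 : ∀ l, μ l < 2 * L + 1 := by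
    intro l
    rw [hμ]
    dsimp only
    rw [Nat.div_lt_iff_lt_mul hs0]
    have h1 := hm l
    have h2 : (2 * L + 1) * s = L * s + L * s + s := by ring
    have h3 : L * (s + 1) = L * s + L := by ring
    omega
  have hκ1 : ∀ i, γ i ≤ N * s * κ i := by
    intro i
    have h1 := Nat.lt_mul_div_succ (γ i + (N * s - 1)) hNs
    rw [Nat.mul_succ] at h1
    change γ i ≤ N * s * ((γ i + (N * s - 1)) / (N * s))
    omega
  have hκ2 : ∀ i, N * s * κ i < γ i + N * s := by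
    intro i
    have h1 := Nat.mul_div_le (γ i + (N * s - 1)) (N * s)
    change N * s * ((γ i + (N * s - 1)) / (N * s)) < _
    omega
  have hκ3 : ∀ i, κ i < 2 * L + 1 := by
    intro i
    by_contra hc
    push Not at hc
    have h1 := hκ2 i
    have h2 := hγ i
    have h3 : N * s * (2 * L + 1) ≤ N * s * κ i := Nat.mul_le_mul_left _ hc
    have h4 : N * s * (2 * L + 1) = N * (L * s + L * s) + N * s := by ring
    have h5 : N * d < N * (L * s + L * s) := by
      refine Nat.mul_lt_mul_of_pos_left ?_ (by omega)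
      have h3 : L * (s + 1) = L * s + L := by ring
      omega
    omega
  obtain ⟨σ, x, γ', hσ1, hσ2, hx1, hx2, hx3⟩ := hS (fun l => ⟨μ l, hμ3 l⟩, fun i => ⟨κ i, hκ3 i⟩)
    ⟨N * s, fun l => ((N * m l : ℕ) : ℤ), γ, by omega, hΓ, fun l => by
      have h1 : N * s * μ l ≤ N * m l := by
        rw [Nat.mul_assoc]
        exact Nat.mul_le_mul_left _ (hμ1 l)
      exact Int.ofNat_le.2 h1, hκ1⟩
  have hσ3 : σ ≤ S₀ := hσ2.trans (le_sup (f := S) (mem_univ _))
  set q := s / σ with hq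
  have hq1 : σ * q ≤ s := Nat.mul_div_le s σ
  have hq2 : s < σ * (q + 1) := Nat.lt_mul_div_succ s (by omega)
  -- the exponents
  have hle : ∀ i, q * γ' i ≤ s * κ i := by
    intro i
    calc q * γ' i ≤ q * (σ * κ i) := Nat.mul_le_mul_left _ (hx3 i)
      _ = (σ * q) * κ i := by ring
      _ ≤ s * κ i := Nat.mul_le_mul_right _ hq1
  have hKs : 2 * (a + 1) * K * s ≤ d := by
    rw [hL] at hsL
    exact hsL
  have hζ2 : ∀ i, K * (s * κ i) + d ≤ K * ζ i + K * s := by
    intro i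
    have h1 := hζ i
    have h2 := hκ2 i
    have h3 : K * (N * s * κ i) ≤ K * (γ i + N * s) := Nat.mul_le_mul_left _ h2.le
    have h4 : N * (K * (s * κ i) + d) ≤ N * (K * ζ i + K * s) := by
      have e1 : N * (K * (s * κ i) + d) = K * (N * s * κ i) + N * d := by ring
      have e2 : N * (K * ζ i + K * s) = K * N * ζ i + K * (N * s) := by ring
      have e3 : K * (γ i + N * s) = K * γ i + K * (N * s) := by ring
      rw [e1, e2]
      omega
    exact Nat.le_of_mul_le_mul_left h4 (by omega)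
  have hKs1 : K * s ≤ d := by
    have h1 : K * s ≤ 2 * (a + 1) * K * s := by
      calc K * s = 1 * (K * s) := by ring
        _ ≤ (2 * (a + 1)) * (K * s) := Nat.mul_le_mul_right _ (by omega)
        _ = _ := by ring
    omega
  have hζ3 : ∀ i, s * κ i ≤ ζ i := by
    intro i
    have h1 := hζ2 i
    have h2 : K * (s * κ i) ≤ K * ζ i := by omega
    exact Nat.le_of_mul_le_mul_left h2 (by omega)
  have h6 := h.add _ _ _ _ (h.nsmul hx1 q) (h.easy (fun l => (m l : ℤ) - q * x l)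
    (fun i => ζ i - q * γ' i) ?_)
  · have e1 : (q • x + fun l => (m l : ℤ) - q * x l) = fun l => (m l : ℤ) := by
      funext l
      rw [Pi.add_apply, Pi.smul_apply, nsmul_eq_mul]
      ring
    have e2 : (q • γ' + fun i => ζ i - q * γ' i) = ζ := by
      funext i
      rw [Pi.add_apply, Pi.smul_apply, smul_eq_mul]
      have := hle i
      have := hζ3 i
      omega
    rw [e1, e2] at h6
    exact h6
  · -- the sum of the remaining multiplicities
    have h7 : ∀ l, max ((m l : ℤ) - q * x l) 0 ≤ (s : ℤ) + 2 * L * σ := by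
      intro l
      refine max_le ?_ (by positivity)
      have e1 : ((σ * μ l : ℕ) : ℤ) ≤ x l := hx2 l
      have e2 : (q : ℤ) * ((σ * μ l : ℕ) : ℤ) ≤ q * x l :=
        mul_le_mul_of_nonneg_left e1 (by positivity)
      have e3 : m l ≤ q * (σ * μ l) + s + 2 * L * σ := by
        have f1 := hμ2 l
        have f2 : s * μ l ≤ σ * (q + 1) * μ l := Nat.mul_le_mul_right _ hq2.le
        have f3 : σ * (q + 1) * μ l = q * (σ * μ l) + σ * μ l := by ring
        have f4 : σ * μ l ≤ σ * (2 * L) := Nat.mul_le_mul_left _ (by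
          have := hμ3 l
          omega)
        have f5 : s * (μ l + 1) = s * μ l + s := by ring
        have f6 : σ * (2 * L) = 2 * L * σ := by ring
        omega
      have e4 : (m l : ℤ) ≤ q * ((σ * μ l : ℕ) : ℤ) + s + 2 * L * σ := by exact_mod_cast e3
      linarith
    have h8 : ∑ l, max ((m l : ℤ) - q * x l) 0 ≤ a * ((s : ℤ) + 2 * L * σ) := by
      calc ∑ l, max ((m l : ℤ) - q * x l) 0 ≤ ∑ _l : Fin a, ((s : ℤ) + 2 * L * σ) :=
            sum_le_sum fun l _ => h7 l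
        _ = _ := by rw [sum_const, card_univ, Fintype.card_fin, nsmul_eq_mul]
    refine h8.trans ?_
    have h9 : a * (s + 2 * L * σ) + q * γ' 0 ≤ ζ 0 := by
      have f1 := hζ2 0
      have f2 := hle 0
      have f3 : K * (a * (s + 2 * L * σ)) + K * s ≤ d := by
        have g1 : 2 * (K * (a * (s + 2 * L * σ)) + K * s) ≤ 2 * d := by
          have g2 : 2 * (K * (a * (s + 2 * L * σ)) + K * s) =
              2 * (a + 1) * K * s + 4 * a * L * K * σ := by ring
          have g3 : 4 * a * L * K * σ ≤ 4 * (a + 1) * L * K * (S₀ + 1) := by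
            refine Nat.mul_le_mul (Nat.mul_le_mul_right _ (Nat.mul_le_mul_right _
              (Nat.mul_le_mul_left _ (by omega)))) (by omega)
          rw [g2]
          omega
        omega
      have f4 : K * (a * (s + 2 * L * σ) + q * γ' 0) ≤ K * ζ 0 := by
        have g1 : K * (q * γ' 0) ≤ K * (s * κ 0) := Nat.mul_le_mul_left _ f2
        rw [Nat.mul_add]
        omega
      exact Nat.le_of_mul_le_mul_left f4 (by omega)
    have h10 : a * (s + 2 * L * σ) ≤ ζ 0 - q * γ' 0 := by omega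
    exact_mod_cast h10

end Pool.Agent.H74.BP
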