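import Mathlib

namespace Pool.Agent.H74.BP

open MvPolynomial

/-- The leading exponents (lexicographic order) of the nonzero elements of W. -/
def LM {r : ℕ} (W : Submodule ℂ (MvPolynomial (Fin r) ℂ)) : Set (Fin r →₀ ℕ) :=
  {α | ∃ F ∈ W, F ≠ 0 ∧ (MonomialOrder.lex (σ := Fin r)).degree F = α}

/-- The coefficients at the leading exponents determine an element of W. -/
theorem eq_zero_of_coeff_LM {r : ℕ} (W : Submodule ℂ (MvPolynomial (Fin r) ℂ))
    (F : MvPolynomial (Fin r) ℂ) (hF : F ∈ W) (h : ∀ α ∈ LM W, F.coeff α = 0) : F = 0 := by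
  by_contra hne
  have h1 := h _ ⟨F, hF, hne, rfl⟩
  exact ((MonomialOrder.lex (σ := Fin r)).coeff_degree_ne_zero_iff.mpr hne) h1

/-- Elements with distinct leading exponents are linearly independent. -/
theorem linearIndependent_of_degree {r : ℕ} {ι : Type*}
    (f : ι → MvPolynomial (Fin r) ℂ) (h0 : ∀ i, f i ≠ 0)
    (hinj : Function.Injective fun i => (MonomialOrder.lex (σ := Fin r)).degree (f i)) :
    LinearIndependent ℂ f := by
  classical
  rw [linearIndependent_iff']
  intro s g hg
  by_contra hcon
  push Not at hcon
  obtain ⟨i0, hi0s, hi0⟩ := hcon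
  set t := s.filter (fun i => g i ≠ 0) with ht
  have htne : t.Nonempty := ⟨i0, by simp [ht, hi0s, hi0]⟩
  obtain ⟨j, hjt, hjmax⟩ := t.exists_max_image
    (fun i => (MonomialOrder.lex (σ := Fin r)).toSyn
      ((MonomialOrder.lex (σ := Fin r)).degree (f i))) htne
  have hj : j ∈ s ∧ g j ≠ 0 := by simpa [ht] using hjt
  have hc := congrArg
    (fun P => P.coeff ((MonomialOrder.lex (σ := Fin r)).degree (f j))) hg
  simp only [MvPolynomial.coeff_sum, MvPolynomial.coeff_smul, MvPolynomial.coeff_zero,
    smul_eq_mul] at hc
  rw [Finset.sum_eq_single j] at hc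
  · rcases mul_eq_zero.mp hc with h1 | h1
    · exact hj.2 h1
    · exact ((MonomialOrder.lex (σ := Fin r)).coeff_degree_ne_zero_iff.mpr (h0 j)) h1
  · intro i his hij
    by_cases hgi : g i = 0
    · rw [hgi, zero_mul]
    · have hit : i ∈ t := by simp [ht, his, hgi]
      have hle := hjmax i hit
      have hlt : (MonomialOrder.lex (σ := Fin r)).toSyn
          ((MonomialOrder.lex (σ := Fin r)).degree (f i)) <
          (MonomialOrder.lex (σ := Fin r)).toSyn
          ((MonomialOrder.lex (σ := Fin r)).degree (f j)) := by
        refine lt_of_le_of_ne hle ?_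
        intro he
        exact hij (hinj ((MonomialOrder.lex (σ := Fin r)).toSyn.injective he))
      rw [(MonomialOrder.lex (σ := Fin r)).coeff_eq_zero_of_lt hlt, mul_zero]
  · intro hjs
    exact absurd hj.1 hjs

/-- Their number is the dimension. -/
theorem ncard_LM {r : ℕ} (W : Submodule ℂ (MvPolynomial (Fin r) ℂ)) [FiniteDimensional ℂ W] :
    (LM W).Finite ∧ (LM W).ncard = Module.finrank ℂ W := by
  classical
  choose! F hFW hF0 hFd using (fun (α : Fin r →₀ ℕ) (h : α ∈ LM W) => h)
  let f : LM W → W := fun α => ⟨F α, hFW α α.2⟩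
  have hli : LinearIndependent ℂ f := by
    have h1 : LinearIndependent ℂ (fun α : LM W => F α) := by
      apply linearIndependent_of_degree
      · intro α
        exact hF0 α α.2
      · intro α β h
        have h2 : (MonomialOrder.lex (σ := Fin r)).degree (F α) =
          (MonomialOrder.lex (σ := Fin r)).degree (F β) := h
        rw [hFd α α.2, hFd β β.2] at h2
        exact Subtype.ext h2
    exact LinearIndependent.of_comp W.subtype h1
  have hfin : Finite (LM W) := hli.finite
  have := Fintype.ofFinite (LM W)
  refine ⟨Set.toFinite _, ?_⟩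
  have hcard : (LM W).ncard = Fintype.card (LM W) := by
    rw [← Nat.card_coe_set_eq, Nat.card_eq_fintype_card]
  rw [hcard]
  apply le_antisymm
  · exact hli.fintype_card_le_finrank
  · let φ : W →ₗ[ℂ] (LM W → ℂ) :=
      { toFun := fun G α => (G : MvPolynomial (Fin r) ℂ).coeff α
        map_add' := by
          intro a b
          funext α
          simp
        map_smul' := by
          intro c a
          funext α
          simp }
    have hinj : Function.Injective φ := by
      rw [injective_iff_map_eq_zero]
      intro G hG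
      apply Subtype.ext
      apply eq_zero_of_coeff_LM W _ G.2
      intro α hα
      exact congrFun hG ⟨α, hα⟩
    have := LinearMap.finrank_le_finrank_of_injective hinj
    simpa using this

end Pool.Agent.H74.BP
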