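import Pool.Agent.H74.BP.Dec
import Pool.Agent.H18.Nef.NefC

/-!
# Big nef classes in the plane
-/

namespace Pool.Agent.H74.BP

open Finset Pool.Agent.H18.Cub Pool.Agent.H18.Pr Pool.Agent.H18.Fat Pool.Agent.H18.Ub
  Pool.Agent.H18.Nef

variable {n : ℕ}

/-- The self-intersection of the Cremona images of a line. -/
theorem lineImage_sq {e : ℕ} {k : Fin n → ℕ} (h : LineImage e k) : ∑ i, k i ^ 2 + 1 = e ^ 2 := by
  induction h with
  | line => simp
  | @step e s k a b c _ hab hac hbc hka hkb hkc hs ih =>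
    rw [sum_three (fun i => k i ^ 2) hab hac hbc] at ih
    rw [sum_three (fun i => (if i = a ∨ i = b ∨ i = c then s + k i - e else k i) ^ 2) hab hac hbc]
    have h3 : ∑ i ∈ univ \ {a, b, c}, (if i = a ∨ i = b ∨ i = c then s + k i - e else k i) ^ 2 =
        ∑ i ∈ univ \ {a, b, c}, k i ^ 2 := sum_congr rfl fun i hi => by
      rw [mem_sdiff, mem_insert, mem_insert, mem_singleton] at hi
      rw [if_neg hi.2]
    rw [h3, if_pos (Or.inl rfl), if_pos (Or.inr (Or.inl rfl)), if_pos (Or.inr (Or.inr rfl))]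
    generalize ∑ i ∈ univ \ {a, b, c}, k i ^ 2 = R at ih ⊢
    obtain ⟨x, hx⟩ : ∃ x, s + k a = x + e := ⟨s + k a - e, by omega⟩
    obtain ⟨y, hy⟩ : ∃ y, s + k b = y + e := ⟨s + k b - e, by omega⟩
    obtain ⟨z, hz⟩ : ∃ z, s + k c = z + e := ⟨s + k c - e, by omega⟩
    have e1 : s + k a - e = x := by omega
    have e2 : s + k b - e = y := by omega
    have e3 : s + k c - e = z := by omega
    rw [e1, e2, e3]
    zify at ih hx hy hz hs ⊢
    have f1 : (x : ℤ) = s + k a - e := by linarith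
    have f2 : (y : ℤ) = s + k b - e := by linarith
    have f3 : (z : ℤ) = s + k c - e := by linarith
    have f4 : (s : ℤ) = 2 * e - k a - k b - k c := by linarith
    rw [f1, f2, f3, f4]
    nlinarith

/-- Reduction to standard form, for classes supported on `J`. -/
theorem reduce9 {D : ℕ} {J : Finset (Fin n)} : ∀ (d : ℕ) (m : Fin n → ℕ),
    PosE D d m → (∀ i, i ∉ J → m i = 0) →
    ∃ (d' : ℕ) (m' : Fin n → ℕ), Cremona 2 d m d' m' ∧ PosE D d' m' ∧
      (∀ i, i ∉ J → m' i = 0) ∧ (∀ S : Finset (Fin n), S.card ≤ 3 → ∑ i ∈ S, m' i ≤ d') ∧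
      virt d' m' = virt d m ∧ ∑ i ∈ J, m' i + 3 * d = ∑ i ∈ J, m i + 3 * d' := by
  intro d
  induction d using Nat.strong_induction_on with
  | _ d ih =>
    intro m h hM
    by_cases hstd : ∀ S : Finset (Fin n), S.card ≤ 3 → ∑ i ∈ S, m i ≤ d
    · exact ⟨d, m, Cremona.refl d m, h, hM, hstd, rfl, rfl⟩
    · push Not at hstd
      obtain ⟨S, hS3, hlt⟩ := hstd
      have hcard : S.card = 3 := by
        by_contra hne
        have h012 : S.card = 0 ∨ S.card = 1 ∨ S.card = 2 := by omega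
        rcases h012 with h0 | h1 | h2
        · rw [card_eq_zero] at h0
          rw [h0, sum_empty] at hlt
          omega
        · obtain ⟨x, rfl⟩ := card_eq_one.1 h1
          rw [sum_singleton] at hlt
          have := h.one x
          omega
        · obtain ⟨x, y, hxy, rfl⟩ := card_eq_two.1 h2
          rw [sum_pair hxy] at hlt
          have := h.two hxy
          omega
      obtain ⟨a, b, c, hab, hac, hbc, rfl⟩ := card_eq_three.1 hcard
      have hma := h.two hbc
      have hmb := h.two hac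
      have hmc := h.two hab
      have hsum : ∑ i ∈ ({a, b, c} : Finset (Fin n)), m i = m a + m b + m c := by
        rw [sum_insert (by simp [hab, hac]), sum_insert (by simp [hbc]), sum_singleton,
          add_assoc]
      rw [hsum] at hlt
      have ha : a ∈ J := by
        by_contra hcon
        have := hM a hcon
        omega
      have hb : b ∈ J := by
        by_contra hcon
        have := hM b hcon
        omega
      have hc : c ∈ J := by
        by_contra hcon
        have := hM c hcon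
        omega
      set s := 2 * d - (m a + m b + m c) with hs
      have hμ : m a + m b + m c + s = 2 * d := by omega
      have hJc := sum_J_crm hab hac hbc hμ hma hmb hmc J ha hb hc
      obtain ⟨d', m', h1, h2, h3, h4, h5, h6⟩ := ih s (by omega) (crm d m a b c s)
        (h.step hab hac hbc hμ) (fun i hi => by
          have h7 := hM i hi
          show (if i = a ∨ i = b ∨ i = c then s + m i - d else m i) = 0
          rw [if_neg, h7]
          rintro (rfl | rfl | rfl)
          · exact hi ha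
          · exact hi hb
          · exact hi hc)
      refine ⟨d', m', ?_, h2, h3, h4, h5.trans (virt_crm hab hac hbc hμ hma hmb hmc), by omega⟩
      obtain ⟨J3, e0, e1, e2, hJ3⟩ := emb3 hab hac hbc
      refine Cremona.step J3 (fun l => ?_) ?_ (fun l => ?_) (fun i hi => ?_) h1
      · have h6 : ∀ x, (x = a ∨ x = b ∨ x = c) → m x ≤ d := by
          rintro x (rfl | rfl | rfl) <;> omega
        apply h6
        by_contra hcon
        exact (hJ3 (J3 l)).2 hcon l rfl
      · rw [Fin.sum_univ_three, e0, e1, e2]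
        omega
      · refine if_pos ?_
        by_contra hcon
        exact (hJ3 (J3 l)).2 hcon l rfl
      · exact if_neg ((hJ3 i).1 hi)

/-- Nef classes supported on at most nine points. -/
theorem nine_zero : ∃ K : ℕ, ∀ (n d : ℕ) (m : Fin n → ℕ) (J : Finset (Fin n)), J.card ≤ 9 →
    (∀ i, i ∉ J → m i = 0) → PosE K d m → ∑ i ∈ J, m i + K ≤ 3 * d →
    ForGeneralPoints 2 n fun p => ImposesMaximalConditions 2 d p m := by
  obtain ⟨K, E, H⟩ := Pool.Agent.H18.Ta.plane
  refine ⟨K, fun n d m J hJ hsmall hpos h9 => ?_⟩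
  obtain ⟨d', m', h1, h2, h3, h4, h5, h6⟩ := reduce9 d m hpos hsmall
  have h7 := H 1 le_rfl n d' m' J hJ (fun i hi => by rw [h3 i hi]; exact Nat.zero_le _) h4
    (by rw [one_pow, Nat.mul_one]; exact h2.deg) (fun _ => by rw [one_pow, Nat.mul_one]; omega)
  refine (cremona_final (by norm_num) h1 h7).mono fun p hp => ?_
  have h8 := hp.2
  by_contra hcon
  have h9 := (h8.1 hcon).2
  have h10 : virt d' m' = ((d' + 2).choose 2 : ℤ) - ∑ i, ((m' i + 2 - 1).choose 2 : ℤ) := rfl
  have h11 : virt d m = ((d + 2).choose 2 : ℤ) - ∑ i, ((m i + 2 - 1).choose 2 : ℤ) := rfl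
  rw [← h10, ← h11, h5] at h9
  exact lt_irrefl _ h9

/-- Nef classes restrict to nef classes. -/
theorem nef_on {d : ℕ} {m : Fin n → ℕ} (h : NefC d m) (J : Finset (Fin n)) :
    NefC d fun i => if i ∈ J then m i else 0 := by
  intro e k hk
  have h1 := h e (fun i => if i ∈ J then k i else 0) (hk.trans (generalDim_anti fun i => by
    split_ifs
    · exact le_rfl
    · exact Nat.zero_le _))
  refine le_trans (le_of_eq (sum_congr rfl fun i _ => ?_)) h1
  by_cases hi : i ∈ J
  · simp [hi]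
  · simp [hi]

/-- The pairing of a class of large self-intersection with a class of non-negative
self-intersection. -/
theorem pairing_bound {ε : ℝ} (hε : 0 < ε) (hε1 : ε ≤ 1) {d e : ℕ} {m k : Fin n → ℕ}
    (hm : ∑ i, (m i : ℝ) ^ 2 ≤ (1 - ε) * d ^ 2) (hk : ∑ i, (k i : ℝ) ^ 2 ≤ e ^ 2) :
    ∑ i, (m i : ℝ) * k i ≤ (1 - ε / 2) * (d * e) := by
  have h1 := Finset.sum_mul_sq_le_sq_mul_sq univ (fun i => (m i : ℝ)) fun i => (k i : ℝ)
  have h2 : (∑ i, (m i : ℝ) ^ 2) * ∑ i, (k i : ℝ) ^ 2 ≤ ((1 - ε) * d ^ 2) * e ^ 2 :=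
    mul_le_mul hm hk (sum_nonneg fun i _ => sq_nonneg _) (by
      have : (0 : ℝ) ≤ 1 - ε := by linarith
      positivity)
  have h3 : ((1 - ε) * (d : ℝ) ^ 2) * e ^ 2 ≤ ((1 - ε / 2) * (d * e)) ^ 2 := by
    have h4 : ((1 - ε / 2) * ((d : ℝ) * e)) ^ 2 - ((1 - ε) * (d : ℝ) ^ 2) * e ^ 2 =
        (ε / 2) ^ 2 * (d * e) ^ 2 := by ring
    have h5 : (0 : ℝ) ≤ (ε / 2) ^ 2 * (d * e) ^ 2 := by positivity
    linarith
  have h4 : (0 : ℝ) ≤ (1 - ε / 2) * (d * e) := by
    have : (0 : ℝ) ≤ 1 - ε / 2 := by linarith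
    positivity
  exact abs_le_of_sq_le_sq' (h1.trans (h2.trans h3)) h4 |>.2

/-- Classes of large self-intersection are big, if the points of small multiplicity are omitted. -/
theorem exists_form_of_sq {ε : ℝ} (hε : 0 < ε) (hε1 : ε ≤ 1) {M : ℕ} (hM : 8 / ε ≤ M) {d : ℕ}
    (hd : 0 < d) {m : Fin n → ℕ} (hm : ∑ i, (m i : ℝ) ^ 2 ≤ (1 - ε) * d ^ 2)
    (L : Finset (Fin n)) (hL : ∀ i ∈ L, M < m i) :
    0 < generalDim 2 ⌊(1 - ε / 4) * (d : ℝ)⌋₊ fun i => if i ∈ L then m i else 0 := by
  classical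
  set j := ⌊(1 - ε / 4) * (d : ℝ)⌋₊ with hj
  have hd0 : (0 : ℝ) < d := by exact_mod_cast hd
  have hM0 : (0 : ℝ) < M := lt_of_lt_of_le (by positivity) hM
  have h1 := Pool.Agent.H74.CT.generalDim_ge (r := 2) (by norm_num) j
    fun i => if i ∈ L then m i else 0
  have hj1 : (1 - ε / 4) * (d : ℝ) < j + 1 := Nat.lt_floor_add_one _
  -- the number of the conditions
  have h2 : ∀ x : ℕ, (((x + 2 - 1).choose 2 : ℕ) : ℝ) * 2 = x * (x + 1) := by
    intro x
    have h3 : (x + 2 - 1).choose 2 * 2 = x * (x + 1) := by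
      have h4 : x + 2 - 1 = x + 1 := by omega
      rw [h4, Nat.choose_two_right, Nat.add_sub_cancel,
        Nat.div_mul_cancel (by
          rw [Nat.mul_comm]
          exact (Nat.even_mul_succ_self x).two_dvd)]
      ring
    exact_mod_cast h3
  have h3 : ((j + 2).choose 2 : ℝ) * 2 = (j + 1) * (j + 2) := by
    have := h2 (j + 1)
    have h4 : j + 1 + 2 - 1 = j + 2 := by omega
    rw [h4] at this
    rw [this]
    push_cast
    ring
  have h4 : ∑ i, (((if i ∈ L then m i else 0) + 2 - 1).choose 2 : ℝ) * 2 ≤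
      (1 + ε / 8) * ((1 - ε) * d ^ 2) := by
    refine le_trans (sum_le_sum (g := fun i => (1 + ε / 8) * (m i : ℝ) ^ 2) fun i _ => ?_) ?_
    · rw [h2]
      by_cases hi : i ∈ L
      · rw [if_pos hi]
        have h5 : (M : ℝ) < m i := by exact_mod_cast hL i hi
        have h6 : (m i : ℝ) ≤ ε / 8 * (m i) ^ 2 := by
          have h7 : 8 ≤ ε * M := by
            rw [div_le_iff₀ hε] at hM
            linarith
          have h8 : ε * M < ε * m i := mul_lt_mul_of_pos_left h5 hε
          have h9 : (0 : ℝ) < m i := hM0.trans h5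
          nlinarith
        nlinarith
      · rw [if_neg hi]
        simp only [Nat.cast_zero, zero_mul]
        positivity
    · rw [← mul_sum]
      exact mul_le_mul_of_nonneg_left hm (by positivity)
  have h5 : ((∑ i, (((if i ∈ L then m i else 0) + 2 - 1).choose 2 : ℤ) : ℤ) : ℝ) * 2 ≤
      (1 + ε / 8) * ((1 - ε) * d ^ 2) := by
    push_cast
    rw [sum_mul]
    exact h4
  have h6 : (1 + ε / 8) * ((1 - ε) * (d : ℝ) ^ 2) < (j + 1) * (j + 2) := by
    have h7 : (0 : ℝ) ≤ (1 - ε / 4) * d := by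
      have : (0 : ℝ) ≤ 1 - ε / 4 := by linarith
      positivity
    have h8 : ((1 - ε / 4) * (d : ℝ)) ^ 2 < (j + 1) * (j + 2) := by nlinarith
    have h9 : (1 + ε / 8) * ((1 - ε) * (d : ℝ) ^ 2) ≤ ((1 - ε / 4) * (d : ℝ)) ^ 2 := by
      have h10 : ((1 - ε / 4) * (d : ℝ)) ^ 2 - (1 + ε / 8) * ((1 - ε) * (d : ℝ) ^ 2) =
          (3 / 8 * ε + 3 / 16 * ε ^ 2) * d ^ 2 := by ring
      have h11 : (0 : ℝ) ≤ (3 / 8 * ε + 3 / 16 * ε ^ 2) * d ^ 2 := by positivity
      linarith
    linarith
  have h7 : ((∑ i, (((if i ∈ L then m i else 0) + 2 - 1).choose 2 : ℤ) : ℤ) : ℝ) <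
      (((j + 2).choose 2 : ℤ) : ℝ) := by
    push_cast at h5 ⊢
    linarith
  have h8 : ∑ i, (((if i ∈ L then m i else 0) + 2 - 1).choose 2 : ℤ) <
      ((j + 2).choose 2 : ℤ) := by exact_mod_cast h7
  omega

end Pool.Agent.H74.BP
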