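import Pool.Agent.H74.BP.Eight
import Pool.Agent.H74.BP.Red
import Pool.Agent.H74.CT.Lp
import Pool.Agent.H74.CT.Fin

/-!
# The plane: at most eight arbitrary multiplicities, and points of medium multiplicity
-/

namespace Pool.Agent.H74.BP

open Finset Pool.Agent.H18.Cub Pool.Agent.H18.Pr Pool.Agent.H18.Fat Pool.Agent.H18.Ub
  Pool.Agent.H18.Nef

/-- Independent conditions from the dimension. -/
theorem imposes_of_exact {r d k : ℕ} (hr : 1 ≤ r) (m : Fin k → ℕ) (J : Finset (Fin k))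
    (h : (generalDim r d fun i => if i ∈ J then m i else 0) +
      ∑ i ∈ J, (m i + r - 1).choose r = (d + r).choose r) :
    ForGeneralPoints r k fun p =>
      ImposesMaximalConditions r d p fun i => if i ∈ J then m i else 0 := by
  classical
  refine (generalDim_spec r d fun i => if i ∈ J then m i else 0).mono fun p hp => ?_
  unfold ImposesMaximalConditions
  have h1 : ∑ i, (((if i ∈ J then m i else 0) + r - 1).choose r : ℤ) =
      ((∑ i ∈ J, (m i + r - 1).choose r : ℕ) : ℤ) := by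
    push_cast
    rw [← sum_subset (subset_univ J)]
    · exact sum_congr rfl fun i hi => by rw [if_pos hi]
    · intro i _ hi
      rw [if_neg hi, Nat.choose_eq_zero_of_lt (by omega)]
      rfl
  rw [hp, h1, ← h, max_eq_right] <;> push_cast <;> omega

/-- The dimensions near `d`, for a class in standard form with large multiplicities at three to eight
points. -/
theorem exact_eight : ∃ K : ℕ, ∀ (n d y x : ℕ) (m : Fin n → ℕ) (J : Finset (Fin n)),
    3 ≤ J.card → J.card ≤ 8 → (∀ i ∈ J, y ≤ m i) →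
    (∀ S ⊆ J, S.card = 3 → ∑ i ∈ S, m i ≤ d) → 6 * (x + K) + 8 ≤ y →
    (generalDim 2 (d - x) fun i => if i ∈ J then m i else 0) +
      ∑ i ∈ J, (m i + 2 - 1).choose 2 = (d - x + 2).choose 2 := by
  classical
  obtain ⟨K, E, H⟩ := eight_large
  refine ⟨K, fun n d y x m J hJ3 hJ8 hy hstd hxy => ?_⟩
  have hxd : x ≤ d := by
    obtain ⟨S, hS, hSc⟩ := exists_subset_card_eq hJ3
    have h1 := hstd S hS hSc
    have h2 : ∑ _i ∈ S, y ≤ ∑ i ∈ S, m i := sum_le_sum fun i hi => hy i (hS hi)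
    rw [sum_const, hSc, smul_eq_mul] at h2
    omega
  have hpair : ∀ (e : ℕ) (k : Fin n → ℕ), 1 ≤ generalDim 2 e k →
      ∑ i, (if i ∈ J then m i else 0) * k i + K * e ≤ (d - x) * e := by
    intro e k hk
    have h1 := nef_eight m J hJ3 hJ8 d y hy hstd hk
    have h2 : ∑ i, (if i ∈ J then m i else 0) * k i = ∑ i ∈ J, m i * k i := by
      rw [← sum_subset (subset_univ J)]
      · exact sum_congr rfl fun i hi => by rw [if_pos hi]
      · intro i _ hi
        rw [if_neg hi, Nat.zero_mul]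
    rw [h2]
    have h3 : 6 * (x + K) * e ≤ y * e := Nat.mul_le_mul_right _ (by omega)
    have h4 : (d - x) * e + x * e = d * e := by
      rw [← Nat.add_mul, Nat.sub_add_cancel hxd]
    nlinarith
  have h1 := H 1 le_rfl n (d - x) (fun i => if i ∈ J then m i else 0) J hJ8
    (fun i hi => by rw [if_neg hi]; exact Nat.zero_le _)
    ⟨fun e k hk => by
      have := hpair e k hk
      omega, fun e k hk => by
      have h2 := hpair e k hk.nef.2
      have he : 1 ≤ e := by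
        have h3 := lineImage_sq hk
        by_contra hcon
        have : e = 0 := by omega
        subst this
        simp at h3
      have h3 : K * 1 ≤ K * e := Nat.mul_le_mul_left _ he
      rw [one_pow]
      omega⟩
  obtain ⟨p, hp1, hp2⟩ := Pool.Agent.H18.Cub.exists_of_general
    (h1.and (generalDim_spec 2 (d - x) fun i => if i ∈ J then m i else 0))
  unfold ImposesMaximalConditions at hp1
  have h2 : ∑ i, (((if i ∈ J then m i else 0) + 2 - 1).choose 2 : ℤ) =
      ((∑ i ∈ J, (m i + 2 - 1).choose 2 : ℕ) : ℤ) := by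
    push_cast
    rw [← sum_subset (subset_univ J)]
    · exact sum_congr rfl fun i hi => by rw [if_pos hi]
    · intro i _ hi
      rw [if_neg hi]
      rfl
  have h3 := length_eight m J hJ3 hJ8 d y x hy hstd (by omega)
  rw [hp2, h2, max_eq_right (by omega)] at hp1
  omega

theorem choose_two_succ (d : ℕ) : (d + 1 + 2).choose 2 = (d + 2).choose 2 + (d + 2) := by
  have h1 : d + 1 + 2 = (d + 2) + 1 := by omega
  rw [h1, Nat.choose_succ_succ' (d + 2) 1, Nat.choose_one_right]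
  exact Nat.add_comm _ _

/-- The growth, for a class in standard form with large multiplicities at three to eight points. -/
theorem slow_eight {K : ℕ} (hK : ∀ (n d y x : ℕ) (m : Fin n → ℕ) (J : Finset (Fin n)),
    3 ≤ J.card → J.card ≤ 8 → (∀ i ∈ J, y ≤ m i) →
    (∀ S ⊆ J, S.card = 3 → ∑ i ∈ S, m i ≤ d) → 6 * (x + K) + 8 ≤ y →
    (generalDim 2 (d - x) fun i => if i ∈ J then m i else 0) +
      ∑ i ∈ J, (m i + 2 - 1).choose 2 = (d - x + 2).choose 2)
    (n d y C E : ℕ) (m : Fin n → ℕ) (J : Finset (Fin n)) (hJ3 : 3 ≤ J.card) (hJ8 : J.card ≤ 8)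
    (hy : ∀ i ∈ J, y ≤ m i) (hstd : ∀ S ⊆ J, S.card = 3 → ∑ i ∈ S, m i ≤ d)
    (hCy : 6 * (C + 1 + K) + 8 ≤ y) (hEC : E * C ≤ d + 1) (h : ℕ → ℕ)
    (hh : ∀ j, h j = generalDim 2 j fun i => if i ∈ J then m i else 0) :
    E * ((h d - h (d - 1)) - (h (d - C) - h (d - C - 1))) ≤ h d - h (d - 1) := by
  classical
  have hCd : C + 1 ≤ d := by
    obtain ⟨S, hS, hSc⟩ := exists_subset_card_eq hJ3
    have h1 := hstd S hS hSc
    have h2 : ∑ _i ∈ S, y ≤ ∑ i ∈ S, m i := sum_le_sum fun i hi => hy i (hS hi)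
    rw [sum_const, hSc, smul_eq_mul] at h2
    omega
  have h0 := hK n d y 0 m J hJ3 hJ8 hy hstd (by omega)
  have h1 := hK n d y 1 m J hJ3 hJ8 hy hstd (by omega)
  have h2 := hK n d y C m J hJ3 hJ8 hy hstd (by omega)
  have h3 := hK n d y (C + 1) m J hJ3 hJ8 hy hstd (by omega)
  rw [← hh] at h0 h1 h2 h3
  obtain ⟨z, rfl⟩ : ∃ z, d = z + C + 1 := ⟨d - C - 1, by omega⟩
  have e0 : z + C + 1 - 0 = z + C + 1 := rfl
  have e1 : z + C + 1 - 1 = z + C := rfl
  have e2 : z + C + 1 - C = z + 1 := by omega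
  have e3 : z + C + 1 - (C + 1) = z := by omega
  have e4 : z + 1 - 1 = z := rfl
  rw [e0] at h0
  rw [e1] at h1
  rw [e2] at h2
  rw [e3] at h3
  rw [e1, e2, e4]
  have c1 := choose_two_succ (z + C)
  have c2 := choose_two_succ z
  have g1 : h (z + C + 1) - h (z + C) = z + C + 2 := by omega
  have g2 : h (z + 1) - h z = z + 2 := by omega
  rw [g1, g2]
  have g3 : z + C + 2 - (z + 2) = C := by omega
  rw [g3]
  omega

/-- The threshold for the large multiplicities. -/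
def YY (K M : ℕ) : ℕ := 6 * (66 * M ^ 3 * (M + 2 - 1).choose 2 + 1 + K) + 8

theorem YY_le (K M : ℕ) (hM : 1 ≤ M) : YY K M ≤ (410 + 6 * K) * M ^ 5 := by
  have h1 := Pool.Agent.H74.CT.choose_le_pow M hM 2
  have h2 : 66 * M ^ 3 * (M + 2 - 1).choose 2 ≤ 66 * M ^ 5 := by
    calc 66 * M ^ 3 * (M + 2 - 1).choose 2 ≤ 66 * M ^ 3 * M ^ 2 := Nat.mul_le_mul_left _ h1
      _ = 66 * M ^ 5 := by ring
  have h3 : 1 ≤ M ^ 5 := Nat.one_le_pow _ _ hM
  unfold YY
  nlinarith

theorem le_YY (K M : ℕ) (hM : 1 ≤ M) : M ≤ YY K M := by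
  have h1 : 1 ≤ (M + 2 - 1).choose 2 := Nat.choose_pos (by omega)
  have h2 : M ^ 1 ≤ M ^ 3 := Nat.pow_le_pow_right hM (by norm_num)
  have h3 : M ^ 3 * 1 ≤ M ^ 3 * (M + 2 - 1).choose 2 := Nat.mul_le_mul_left _ h1
  unfold YY
  nlinarith

/-- Raising the threshold a bounded number of times separates the large multiplicities. -/
theorem thresholds (K n : ℕ) : ∃ A E : ℕ, ∀ M : ℕ, 1 ≤ M → ∀ (k : ℕ) (m : Fin k → ℕ)
    (J : Finset (Fin k)), J.card ≤ n → ∃ (M' : ℕ) (J' : Finset (Fin k)), J' ⊆ J ∧ M ≤ M' ∧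
      M' ≤ A * M ^ E ∧ (∀ i ∈ J', YY K M' ≤ m i) ∧ ∀ i ∈ J, i ∉ J' → m i ≤ M' := by
  classical
  induction n with
  | zero =>
    refine ⟨1, 1, fun M hM k m J hJ => ⟨M, ∅, empty_subset _, le_rfl, by simp, ?_, ?_⟩⟩
    · intro i hi
      exact absurd hi (notMem_empty i)
    · intro i hi
      rw [card_eq_zero.1 (Nat.le_zero.1 hJ)] at hi
      exact absurd hi (notMem_empty i)
  | succ n ih =>
    obtain ⟨A, E, hA⟩ := ih
    refine ⟨A * (410 + 6 * K) ^ E + 1, 5 * E + 1, fun M hM k m J hJ => ?_⟩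
    by_cases hall : ∀ i ∈ J, YY K M ≤ m i
    · refine ⟨M, J, subset_rfl, le_rfl, ?_, hall, fun i hi hi' => absurd hi hi'⟩
      have h1 : M ^ 1 ≤ M ^ (5 * E + 1) := Nat.pow_le_pow_right hM (by omega)
      rw [pow_one] at h1
      nlinarith [Nat.zero_le (A * (410 + 6 * K) ^ E * M ^ (5 * E + 1))]
    · push Not at hall
      obtain ⟨i₀, hi₀, hlt⟩ := hall
      set J₁ := J.filter fun i => YY K M ≤ m i with hJ₁
      have hc : J₁.card < J.card := card_lt_card (by
        rw [hJ₁, filter_ssubset]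
        exact ⟨i₀, hi₀, by omega⟩)
      have hM₁ : 1 ≤ YY K M := hM.trans (le_YY K M hM)
      obtain ⟨M', J', h1, h2, h3, h4, h5⟩ := hA (YY K M) hM₁ k m J₁ (by omega)
      refine ⟨M', J', h1.trans (filter_subset _ _), (le_YY K M hM).trans h2, ?_, h4,
        fun i hi hi' => ?_⟩
      · have h6 := YY_le K M hM
        calc M' ≤ A * YY K M ^ E := h3
          _ ≤ A * ((410 + 6 * K) * M ^ 5) ^ E :=
            Nat.mul_le_mul_left _ (Nat.pow_le_pow_left h6 _)
          _ = A * (410 + 6 * K) ^ E * M ^ (5 * E) := by rw [mul_pow, ← pow_mul, mul_assoc]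
          _ ≤ (A * (410 + 6 * K) ^ E + 1) * M ^ (5 * E + 1) :=
            Nat.mul_le_mul (Nat.le_succ _) (Nat.pow_le_pow_right hM (Nat.le_succ _))
      · by_cases hi1 : i ∈ J₁
        · exact h5 i hi1 hi'
        · have h6 : ¬ YY K M ≤ m i := fun h => hi1 (mem_filter.2 ⟨hi, h⟩)
          omega

/-- The plane: at most eight arbitrary multiplicities and points of medium multiplicity. -/
theorem plane_med : ∃ K E : ℕ, ∀ M : ℕ, 1 ≤ M → ∀ (k d μ : ℕ) (m : Fin k → ℕ)
    (J : Finset (Fin k)), J.card ≤ 8 → (∀ i, i ∉ J → m i ≤ μ) →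
    (∀ S : Finset (Fin k), S.card ≤ 3 → ∑ i ∈ S, m i ≤ d) → K * M ^ E ≤ d →
    (len 2 m (univ.filter fun i => i ∉ J ∧ M < m i) = 0 ∨ ∃ e, e + μ + K * M ^ E ≤ d ∧
      len 2 m (univ.filter fun i => i ∉ J ∧ M < m i) ≤
        generalDim 2 e fun i => if i ∈ J then m i else 0) →
    ForGeneralPoints 2 k fun p => ImposesMaximalConditions 2 d p m := by
  classical
  obtain ⟨K₁, hK₁⟩ := exact_eight
  obtain ⟨K₂, E₂, hplane⟩ := Pool.Agent.H18.Ta.plane
  obtain ⟨A, E₀, hthr⟩ := thresholds K₁ 8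
  refine ⟨(1 + K₂) * (2048000000 * A ^ 14) ^ (E₂ + 1), 14 * E₀ * (E₂ + 1),
    fun M hM k d μ m J hJ8 hμ hstd hd hmed => ?_⟩
  obtain ⟨M', J', hJ'J, hMM', hM'A, hY, hout⟩ := hthr M hM k m J hJ8
  have hM' : 1 ≤ M' := hM.trans hMM'
  set R := (1 + K₂) * (2048000000 * A ^ 14) ^ (E₂ + 1) * M ^ (14 * E₀ * (E₂ + 1)) with hR
  set Q := 2048000000 * M' ^ 14 with hQ
  have hQ1 : 1 ≤ Q := by
    have : 1 ≤ M' ^ 14 := Nat.one_le_pow _ _ hM'
    omega
  have hQ0 : Q ≤ 2048000000 * A ^ 14 * M ^ (14 * E₀) := by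
    have h1 : M' ^ 14 ≤ (A * M ^ E₀) ^ 14 := Nat.pow_le_pow_left hM'A 14
    have h2 : (A * M ^ E₀) ^ 14 = A ^ 14 * M ^ (14 * E₀) := by
      rw [mul_pow, ← pow_mul, Nat.mul_comm E₀ 14]
    rw [h2] at h1
    calc Q ≤ 2048000000 * (A ^ 14 * M ^ (14 * E₀)) := Nat.mul_le_mul_left _ h1
      _ = _ := by ring
  have hbig : (1 + K₂) * Q ^ (E₂ + 1) ≤ R := by
    calc (1 + K₂) * Q ^ (E₂ + 1) ≤
        (1 + K₂) * (2048000000 * A ^ 14 * M ^ (14 * E₀)) ^ (E₂ + 1) :=
          Nat.mul_le_mul_left _ (Nat.pow_le_pow_left hQ0 _)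
      _ = R := by
          rw [hR, mul_pow (2048000000 * A ^ 14), ← pow_mul]
          ring
  have hQR : Q ≤ R := by
    have h1 : Q ^ 1 ≤ Q ^ (E₂ + 1) := Nat.pow_le_pow_right hQ1 (by omega)
    rw [pow_one] at h1
    nlinarith [Nat.zero_le (K₂ * Q ^ (E₂ + 1))]
  have hB := Pool.Agent.H74.CT.choose_le_pow M' hM' 2
  have hDL : Pool.Agent.H74.CT.DL (0 + 2) M' ≤ Q := by
    unfold Pool.Agent.H74.CT.DL
    have h1 : (M' + 2 - 1).choose 2 ^ 3 ≤ (M' ^ 2) ^ 3 := Nat.pow_le_pow_left hB 3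
    calc 10 ^ 6 * (0 + 2) ^ 5 * 8 ^ (0 + 2) * M' ^ 8 * (M' + (0 + 2) - 1).choose (0 + 2) ^ 3 ≤
        10 ^ 6 * (0 + 2) ^ 5 * 8 ^ (0 + 2) * M' ^ 8 * (M' ^ 2) ^ 3 := Nat.mul_le_mul_left _ h1
      _ = Q := by
        rw [hQ]
        ring
  have hM'14 : ∀ a ≤ 14, M' ^ a ≤ M' ^ 14 := fun a ha => Nat.pow_le_pow_right hM' ha
  have hF : M' + 300 * 2 * M' ^ (2 + 4) ≤ Q := by
    have h1 := hM'14 1 (by norm_num)
    have h2 := hM'14 6 (by norm_num)
    rw [pow_one] at h1
    have h3 : M' ^ (2 + 4) = M' ^ 6 := rfl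
    rw [h3, hQ]
    omega
  have hEC : 16 * M' ^ 2 * (M' + 2 - 1).choose 2 * (66 * M' ^ 3 * (M' + 2 - 1).choose 2) ≤ Q := by
    have h1 : (M' + 2 - 1).choose 2 * (M' + 2 - 1).choose 2 ≤ M' ^ 2 * M' ^ 2 :=
      Nat.mul_le_mul hB hB
    have h2 := hM'14 9 (by norm_num)
    calc 16 * M' ^ 2 * (M' + 2 - 1).choose 2 * (66 * M' ^ 3 * (M' + 2 - 1).choose 2) =
        1056 * M' ^ 5 * ((M' + 2 - 1).choose 2 * (M' + 2 - 1).choose 2) := by ring
      _ ≤ 1056 * M' ^ 5 * (M' ^ 2 * M' ^ 2) := Nat.mul_le_mul_left _ h1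
      _ = 1056 * M' ^ 9 := by ring
      _ ≤ Q := by
        rw [hQ]
        omega
  have hpair : ∀ i j, i ≠ j → m i + m j ≤ d := by
    intro i j hij
    have h1 := hstd {i, j} (card_le_two.trans (by norm_num))
    rw [sum_pair hij] at h1
    exact h1
  have hone : ∀ i, m i ≤ d := by
    intro i
    have h1 := hstd {i} (by rw [card_singleton]; norm_num)
    rw [sum_singleton] at h1
    exact h1
  -- the medium points
  set h : ℕ → ℕ := fun j => generalDim 2 j fun i => if i ∈ J' then m i else 0 with hh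
  have hlen : len 2 m (univ.filter fun i => i ∉ J' ∧ M' < m i) ≤
      len 2 m (univ.filter fun i => i ∉ J ∧ M < m i) := by
    unfold len
    refine sum_le_sum_of_subset fun i hi => ?_
    rw [mem_filter] at hi ⊢
    refine ⟨mem_univ i, fun hiJ => ?_, by omega⟩
    have := hout i hiJ hi.2.1
    omega
  have hmax : 16 * M' ^ 2 * (M' + 2 - 1).choose 2 * ((h d - h (d - 1)) -
      (h (d - 66 * M' ^ 3 * (M' + 2 - 1).choose 2) -
        h (d - 66 * M' ^ 3 * (M' + 2 - 1).choose 2 - 1))) ≤ h d - h (d - 1) →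
      Max 2 d m J' := by
    intro hslow
    refine max_slow 2 M' le_rfl hM' k d (max μ M') m J' (fun i hi => ?_) h (fun _ => rfl) ?_
      (Or.inl hslow)
    · by_cases hiJ : i ∈ J
      · exact (hout i hiJ hi).trans (le_max_right _ _)
      · exact (hμ i hiJ).trans (le_max_left _ _)
    · rcases hmed with h0 | ⟨e, he1, he2⟩
      · exact Or.inl (Nat.le_zero.1 (hlen.trans h0.le))
      · refine Or.inr ⟨e, ?_, hlen.trans (he2.trans ?_)⟩
        · have h1 : max μ M' ≤ μ + M' := max_le (Nat.le_add_right _ _) (Nat.le_add_left _ _)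
          omega
        · refine generalDim_anti fun i => ?_
          by_cases hi : i ∈ J'
          · rw [if_pos hi, if_pos (hJ'J hi)]
          · rw [if_neg hi]
            exact Nat.zero_le _
  have hJ'8 : J'.card ≤ 8 := (card_le_card hJ'J).trans hJ8
  by_cases hJ3 : 3 ≤ J'.card
  · -- three to eight points
    have hstd' : ∀ S ⊆ J', S.card = 3 → ∑ i ∈ S, m i ≤ d := fun S _ hS => hstd S hS.le
    have hy : 6 * (66 * M' ^ 3 * (M' + 2 - 1).choose 2 + 1 + K₁) + 8 ≤ YY K₁ M' := le_rfl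
    have hslow := slow_eight hK₁ k d (YY K₁ M') (66 * M' ^ 3 * (M' + 2 - 1).choose 2)
      (16 * M' ^ 2 * (M' + 2 - 1).choose 2) m J' hJ3 hJ'8 hY hstd' hy (by omega) h (fun _ => rfl)
    have hex := hK₁ k d (YY K₁ M') 0 m J' hJ3 hJ'8 hY hstd' (by omega)
    exact imposes_of_max (by norm_num) m J' (hmax hslow) (imposes_of_exact (by norm_num) m J' hex)
  · push Not at hJ3
    by_cases hD : ∀ i ∈ J', m i + Pool.Agent.H74.CT.DL (0 + 2) M' ≤ d
    · have hslow := Pool.Agent.H74.CT.growth_few 0 M' k d hM' m J' (by omega) hD (by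
        norm_num
        omega) (fun a _ b _ hab => (hpair a b hab).trans (Nat.le_succ _)) h (fun _ => rfl)
      have hle := Pool.Agent.H74.CT.exact2 0 0 k d m J' (Nat.zero_le _)
        (fun i _ => (hone i).trans (Nat.le_succ _)) (by
          have h1 : ∑ u ∈ range (0 + 2 + 1), (0 + 2).choose u = 4 := by decide
          rw [h1]
          omega) (fun a _ b _ hab => hpair a b hab)
      have hge := Pool.Agent.H74.CT.dim_ge 0 d k m J'
      exact imposes_of_max (by norm_num) m J' (hmax hslow)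
        (imposes_of_exact (by norm_num) m J' (le_antisymm hle hge))
    · -- one multiplicity close to `d`
      push Not at hD
      obtain ⟨i₀, hi₀, hlt⟩ := hD
      have hDL1 : 1 ≤ Pool.Agent.H74.CT.DL (0 + 2) M' := by
        have := hone i₀
        omega
      refine hplane (Pool.Agent.H74.CT.DL (0 + 2) M') hDL1 k d m {i₀}
        (by rw [card_singleton]; norm_num) (fun i hi => ?_) hstd ?_
        (fun hc => by
          rw [card_singleton] at hc
          omega)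
      · have h1 := hpair i i₀ fun h => hi (mem_singleton.2 h)
        omega
      · have h1 : Pool.Agent.H74.CT.DL (0 + 2) M' ^ E₂ ≤ Q ^ E₂ := Nat.pow_le_pow_left hDL _
        have h2 : Q ^ E₂ ≤ Q ^ (E₂ + 1) := Nat.pow_le_pow_right hQ1 (Nat.le_succ _)
        have h3 : K₂ * Pool.Agent.H74.CT.DL (0 + 2) M' ^ E₂ ≤ K₂ * Q ^ (E₂ + 1) :=
          Nat.mul_le_mul_left _ (h1.trans h2)
        nlinarith [Nat.zero_le (Q ^ (E₂ + 1))]

end Pool.Agent.H74.BP
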