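import Pool.Agent.H18.FatToric

set_option autoImplicit false

namespace Pool.Agent.H74.BP

open MvPolynomial Pool.Agent.H18.Fat

theorem dense_ne_zero {ι : Type} [Fintype ι] (G : MvPolynomial ι ℂ) (hG : G ≠ 0) :
    Dense {x : ι → ℂ | eval x G ≠ 0} := by
  intro x
  obtain ⟨y, hy⟩ : ∃ y : ι → ℂ, eval y G ≠ 0 := by
    by_contra hcon
    push Not at hcon
    exact hG (MvPolynomial.funext fun z => by rw [hcon z, map_zero])
  let g : Polynomial ℂ :=
    MvPolynomial.aeval (fun i => Polynomial.C (x i) + Polynomial.X * Polynomial.C (y i - x i)) G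
  have hg : ∀ t : ℂ, g.eval t = eval (fun i => x i + t * (y i - x i)) G := by
    intro t
    rw [← Polynomial.coe_evalRingHom]
    simp only [g, MvPolynomial.aeval_def, MvPolynomial.hom_eval₂]
    rw [← MvPolynomial.eval₂_id]
    congr 1
    · ext z; simp
    · funext i; simp
  have hg0 : g ≠ 0 := by
    intro h0
    have h1 := hg 1
    rw [h0, Polynomial.eval_zero] at h1
    apply hy
    rw [h1]
    congr 2
    funext i
    ring
  have hfin : ({t : ℂ | g.eval t = 0} : Set ℂ).Finite := by
    refine (g.roots.toFinset.finite_toSet).subset fun t ht => ?_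
    simp only [Finset.mem_coe, Multiset.mem_toFinset]
    exact (Polynomial.mem_roots hg0).2 ht
  have hd : Dense ({t : ℂ | g.eval t = 0}ᶜ) := hfin.countable.dense_compl ℂ
  let φ : ℂ → (ι → ℂ) := fun t i => x i + t * (y i - x i)
  have hφ : Continuous φ := by
    refine continuous_pi fun i => ?_
    fun_prop
  have hx : x = φ 0 := by
    funext i; simp [φ]
  have h0 : φ 0 ∈ closure (φ '' ({t : ℂ | g.eval t = 0}ᶜ)) :=
    image_closure_subset_closure_image hφ ⟨0, hd 0, rfl⟩
  rw [hx]
  refine closure_mono ?_ h0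
  rintro _ ⟨t, ht, rfl⟩
  have ht' : g.eval t ≠ 0 := ht
  rw [hg] at ht'
  exact ht'

/-- Countably many general conditions hold simultaneously for some points. -/
theorem exists_veryGeneral {r k : ℕ} {P : ℕ → (Fin k → Fin (r + 1) → ℂ) → Prop}
    (h : ∀ n, ForGeneralPoints r k (P n)) : ∃ p, ∀ n, P n p := by
  choose G hG0 hG using h
  have hopen : ∀ n, IsOpen {x : Fin k × Fin (r + 1) → ℂ | eval x (G n) ≠ 0} := fun n =>
    isOpen_ne_fun (MvPolynomial.continuous_eval (G n)) continuous_const
  have hd := dense_iInter_of_isOpen_nat hopen fun n => dense_ne_zero (G n) (hG0 n)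
  obtain ⟨x, hx⟩ := hd.nonempty
  refine ⟨fun i j => x (i, j), fun n => hG n _ ?_⟩
  have := Set.mem_iInter.1 hx n
  exact this

end Pool.Agent.H74.BP
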