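import Pool.Agent.H74.BP.Inj
import Pool.Agent.H74.BP.Lead
import Pool.Agent.H74.BP.Very
import Pool.Agent.H74.CT.Jump
import Pool.Agent.H18.Nef.NefA

/-!
# The semigroup of multiplicities and leading exponents
-/

namespace Pool.Agent.H74.BP

open MvPolynomial Pool.Agent.H18.Fat Pool.Agent.H18.Ub Pool.Agent.H22.LU Pool.Agent.H74.CT

/-- Restriction to the hyperplane `x_0 = 0`. -/
noncomputable def res (s : ℕ) : MvPolynomial (Fin (s + 1)) ℂ →ₐ[ℂ] MvPolynomial (Fin s) ℂ :=
  aeval (Fin.cons 0 X : Fin (s + 1) → MvPolynomial (Fin s) ℂ)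

theorem res_monomial (s : ℕ) (α : Fin (s + 1) →₀ ℕ) (c : ℂ) :
    res s (monomial α c) = if α 0 = 0 then monomial (Finsupp.tail α) c else 0 := by
  unfold res
  rw [aeval_monomial, Finsupp.prod_fintype _ _ fun _ => pow_zero _, Fin.prod_univ_succ,
    Fin.cons_zero]
  by_cases h : α 0 = 0
  · rw [if_pos h, h, pow_zero, one_mul, monomial_eq, algebraMap_eq,
      Finsupp.prod_fintype _ _ fun _ => pow_zero _]
    congr 1
  · rw [if_neg h, zero_pow h, zero_mul, mul_zero]

theorem coeff_res (s : ℕ) (F : MvPolynomial (Fin (s + 1)) ℂ) (β : Fin s →₀ ℕ) :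
    coeff β (res s F) = coeff (Finsupp.cons 0 β) F := by
  classical
  induction F using MvPolynomial.induction_on' with
  | monomial α c =>
    rw [res_monomial, coeff_monomial]
    by_cases h : α 0 = 0
    · rw [if_pos h, coeff_monomial]
      by_cases h1 : Finsupp.tail α = β
      · rw [if_pos h1, if_pos]
        rw [← h1, ← h, Finsupp.cons_tail]
      · rw [if_neg h1, if_neg]
        intro h2
        apply h1
        rw [h2, Finsupp.tail_cons]
    · rw [if_neg h, coeff_zero, if_neg]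
      intro h2
      apply h
      rw [h2, Finsupp.cons_zero]
  | add p q hp hq => rw [map_add, coeff_add, coeff_add, hp, hq]

theorem dvd_of_res (s : ℕ) {F : MvPolynomial (Fin (s + 1)) ℂ} (h : res s F = 0) : X 0 ∣ F := by
  rw [X_dvd_iff_modMonomial_eq_zero]
  ext α
  rw [coeff_zero]
  by_cases hα : Finsupp.single 0 1 ≤ α
  · exact coeff_modMonomial_of_le _ hα
  · rw [coeff_modMonomial_of_not_le _ hα]
    have h0 : α 0 = 0 := by
      by_contra hc
      apply hα
      rw [Finsupp.single_le_iff]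
      omega
    have h1 := coeff_res s F (Finsupp.tail α)
    rw [h, coeff_zero, ← h0, Finsupp.cons_tail] at h1
    exact h1.symm

theorem res_X_zero (s : ℕ) : res s (X 0) = 0 := by
  unfold res
  rw [aeval_X, Fin.cons_zero]

theorem res_X_succ (s : ℕ) (i : Fin s) : res s (X i.succ) = X i := by
  unfold res
  rw [aeval_X, Fin.cons_succ]

theorem res_hom (s d : ℕ) {F : MvPolynomial (Fin (s + 1)) ℂ} (hF : F.IsHomogeneous d) :
    (res s F).IsHomogeneous d := by
  intro β hβ
  rw [coeff_res] at hβ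
  have h1 := hF hβ
  rw [Finsupp.weight_apply, Finsupp.sum_fintype _ _ (fun _ => by simp)] at h1 ⊢
  rw [Fin.sum_univ_succ] at h1
  simpa using h1

theorem finrank_res (s : ℕ) (V V' : Submodule ℂ (MvPolynomial (Fin (s + 1)) ℂ))
    [FiniteDimensional ℂ V] (h1 : ∀ F ∈ V', X 0 * F ∈ V) (h2 : ∀ F, X 0 * F ∈ V → F ∈ V') :
    Module.finrank ℂ (Submodule.map (res s).toLinearMap V) + Module.finrank ℂ V' =
      Module.finrank ℂ V := by
  let μ : MvPolynomial (Fin (s + 1)) ℂ →ₗ[ℂ] MvPolynomial (Fin (s + 1)) ℂ :=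
    LinearMap.mulLeft ℂ (X 0)
  have hμ : Function.Injective μ := fun a b hab => mul_left_cancel₀ (X_ne_zero 0) hab
  have hle : Submodule.map μ V' ≤ V := by
    rintro F ⟨R, hR, rfl⟩
    exact h1 R hR
  have e1 : Module.finrank ℂ (Submodule.map μ V') = Module.finrank ℂ V' :=
    (Submodule.equivMapOfInjective μ hμ V').finrank_eq.symm
  have e2 : LinearMap.ker ((res s).toLinearMap.domRestrict V) =
      Submodule.comap V.subtype (Submodule.map μ V') := by
    ext F
    rw [LinearMap.mem_ker, Submodule.mem_comap]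
    constructor
    · intro h
      obtain ⟨R, hR⟩ := dvd_of_res s (F := F.1) h
      refine ⟨R, h2 R ?_, hR.symm⟩
      rw [← hR]
      exact F.2
    · rintro ⟨R, -, hR⟩
      change res s F.1 = 0
      have h3 : X 0 * R = F.1 := hR
      rw [← h3, map_mul, res_X_zero, zero_mul]
  have e3 := LinearMap.finrank_range_add_finrank_ker ((res s).toLinearMap.domRestrict V)
  rw [LinearMap.range_domRestrict, e2, (Submodule.comapSubtypeEquivOfLe hle).finrank_eq, e1] at e3
  exact e3

/-- The semigroup. -/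
def GS {s a : ℕ} (p : Fin a → Fin (s + 1 + 1) → ℂ) (m : Fin a → ℤ) (α : Fin (s + 1) → ℕ) : Prop :=
  ∃ F ∈ fatForms (s + 1) (∑ i, α i) p (fun l => (m l).toNat), res (s + 1) F ≠ 0 ∧
    ∀ i, (MonomialOrder.lex (σ := Fin (s + 1))).degree (res (s + 1) F) i = α i

variable {s a : ℕ} {p : Fin a → Fin (s + 1 + 1) → ℂ}

theorem sem_GS (hp : ∀ l, p l 0 ≠ 0) : Sem a s (GS p) where
  add := by
    rintro m α m' α' ⟨F, hF, hF0, hFα⟩ ⟨G, hG, hG0, hGα⟩
    refine ⟨F * G, ⟨?_, fun l => ?_⟩, ?_, fun i => ?_⟩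
    · have h1 := hF.1.mul hG.1
      rw [← Finset.sum_add_distrib] at h1
      exact h1
    · refine van_mono (van_mul (hF.2 l) (hG.2 l)) ?_
      change ((m + m') l).toNat ≤ (m l).toNat + (m' l).toNat
      rw [Pi.add_apply]
      omega
    · rw [map_mul]
      exact mul_ne_zero hF0 hG0
    · rw [map_mul, MonomialOrder.degree_mul hF0 hG0, Finsupp.add_apply, hFα, hGα]
      rfl
  mono := by
    rintro m m' α ⟨F, hF, hF0, hFα⟩ hle
    refine ⟨F, ⟨hF.1, fun l => van_mono (hF.2 l) ?_⟩, hF0, hFα⟩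
    have h9 : m' l ≤ m l := hle l
    exact Int.toNat_le_toNat h9
  zero := by
    refine ⟨1, ⟨?_, fun l => ?_⟩, ?_, fun i => ?_⟩
    · have : ∑ i : Fin (s + 1), (0 : Fin (s + 1) → ℕ) i = 0 := by simp
      rw [this]
      exact isHomogeneous_one _ _
    · exact vanishes_zero _ _
    · rw [map_one]
      exact one_ne_zero
    · rw [map_one, MonomialOrder.degree_one]
      rfl
  unit := by
    intro i
    refine ⟨X i.succ, ⟨?_, fun l => ?_⟩, ?_, fun j => ?_⟩
    · rw [Finset.sum_pi_single' i 1 Finset.univ, if_pos (Finset.mem_univ i)]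
      exact isHomogeneous_X ℂ i.succ
    · exact vanishes_zero _ _
    · rw [res_X_succ]
      exact X_ne_zero i
    · rw [res_X_succ, MonomialOrder.degree_X, Finsupp.single_eq_pi_single]
  lin := by
    intro l
    have h1 : res (s + 1) (C (p l 0) * X 1 - C (p l 1) * X 0) = C (p l 0) * X 0 := by
      rw [map_sub, map_mul, map_mul, res_X_zero, mul_zero, sub_zero]
      have h2 : (1 : Fin (s + 1 + 1)) = (0 : Fin (s + 1)).succ := rfl
      rw [h2, res_X_succ]
      congr 1
      unfold res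
      rw [aeval_C]
      rfl
    have hC : (C (p l 0) : MvPolynomial (Fin (s + 1)) ℂ) ≠ 0 := by
      rw [Ne, C_eq_zero]
      exact hp l
    refine ⟨C (p l 0) * X 1 - C (p l 1) * X 0, ⟨?_, fun l' => ?_⟩, ?_, fun j => ?_⟩
    · rw [Finset.sum_pi_single' 0 1 Finset.univ, if_pos (Finset.mem_univ 0)]
      refine IsHomogeneous.sub ?_ ?_
      · simpa using (isHomogeneous_C _ (p l 0)).mul (isHomogeneous_X ℂ (1 : Fin (s + 1 + 1)))
      · simpa using (isHomogeneous_C _ (p l 1)).mul (isHomogeneous_X ℂ (0 : Fin (s + 1 + 1)))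
    · by_cases h2 : l' = l
      · subst h2
        change VanishesToOrder _ _ ((Pi.single l' (1 : ℤ) : Fin a → ℤ) l').toNat
        rw [Pi.single_eq_same]
        change VanishesToOrder _ _ 1
        rw [vanishes_one_iff]
        simp only [map_sub, map_mul, eval_C, eval_X]
        ring
      · change VanishesToOrder _ _ ((Pi.single l (1 : ℤ) : Fin a → ℤ) l').toNat
        rw [Pi.single_eq_of_ne h2]
        exact vanishes_zero _ _
    · rw [h1]
      exact mul_ne_zero hC (X_ne_zero 0)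
    · rw [h1, MonomialOrder.degree_mul hC (X_ne_zero 0), MonomialOrder.degree_C,
        MonomialOrder.degree_X, zero_add, Finsupp.single_eq_pi_single]

theorem GS_le (m : Fin a → ℤ) (α : Fin (s + 1) → ℕ) (h : GS p m α) (l : Fin a) :
    m l ≤ ((∑ i, α i : ℕ) : ℤ) := by
  obtain ⟨F, hF, hF0, -⟩ := h
  by_contra hc
  push Not at hc
  apply hF0
  have h1 : F = 0 := by
    refine Pool.Agent.H18.Nef.eq_zero_of_vanishes (m := (m l).toNat) F hF.1 (p l) ?_ (hF.2 l)
    omega
  rw [h1, map_zero]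

/-- The number of the exponents. -/
theorem ncard_GS (hp : ∀ l, p l 0 ≠ 0) (m : Fin a → ℕ) (d : ℕ) :
    {α : Fin (s + 1) → ℕ | ∑ i, α i = d + 1 ∧ GS p (fun l => (m l : ℤ)) α}.ncard +
      Module.finrank ℂ (fatForms (s + 1) d p m) =
      Module.finrank ℂ (fatForms (s + 1) (d + 1) p m) := by
  have i1 := fin_fatForms (s + 1) (d + 1) p m
  set V := fatForms (s + 1) (d + 1) p m with hV
  set W := Submodule.map (res (s + 1)).toLinearMap V with hW
  have i2 : FiniteDimensional ℂ W := by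
    rw [hW]
    infer_instance
  obtain ⟨-, h2⟩ := ncard_LM W
  have hset : {α : Fin (s + 1) → ℕ | ∑ i, α i = d + 1 ∧ GS p (fun l => (m l : ℤ)) α} =
      (fun α : Fin (s + 1) →₀ ℕ => (α : Fin (s + 1) → ℕ)) '' LM W := by
    ext α
    constructor
    · rintro ⟨h3, F, hF, hF0, hFα⟩
      rw [h3] at hF
      refine ⟨(MonomialOrder.lex (σ := Fin (s + 1))).degree (res (s + 1) F),
        ⟨res (s + 1) F, ⟨F, ⟨hF.1, fun l => hF.2 l⟩, rfl⟩, hF0, rfl⟩, ?_⟩
      funext i
      exact hFα i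
    · rintro ⟨β, ⟨G, ⟨F, hF, hFG⟩, hG0, hGβ⟩, rfl⟩
      have hFG' : res (s + 1) F = G := hFG
      subst hFG'
      have h3 : ∑ i, β i = d + 1 := by
        have h4 := res_hom (s + 1) (d + 1) hF.1
          ((MonomialOrder.lex (σ := Fin (s + 1))).coeff_degree_ne_zero_iff.2 hG0)
        rw [hGβ, Finsupp.weight_apply, Finsupp.sum_fintype _ _ (fun _ => by simp)] at h4
        simpa using h4
      refine ⟨h3, F, ?_, hG0, fun i => by rw [hGβ]⟩
      rw [h3]
      exact ⟨hF.1, fun l => hF.2 l⟩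
  rw [hset, Set.ncard_image_of_injective _ DFunLike.coe_injective, h2]
  refine finrank_res (s + 1) V _ (fun F hF => ⟨?_, fun l => ?_⟩) fun F hF =>
    ⟨hom_div hF.1, fun l => van_div (by rw [eval_X]; exact hp l) (hF.2 l)⟩
  · rw [Nat.add_comm d 1]
    exact (isHomogeneous_X ℂ 0).mul hF.1
  · have h1 := van_mul (vanishes_zero (p l) (X 0)) (hF.2 l)
    rwa [Nat.zero_add] at h1

/-- A form not divisible by `x_0`. -/
theorem exists_GS (hp : ∀ l, p l 0 ≠ 0) (m : Fin a → ℕ) : ∀ (e : ℕ),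
    (∃ F ∈ fatForms (s + 1) e p m, F ≠ 0) →
    ∃ β : Fin (s + 1) → ℕ, GS p (fun l => (m l : ℤ)) β ∧ ∑ i, β i ≤ e := by
  intro e
  induction e with
  | zero =>
    rintro ⟨F, hF, hF0⟩
    refine ⟨0, ⟨F, ?_, ?_, fun i => ?_⟩, by simp⟩
    · have : ∑ i : Fin (s + 1), (0 : Fin (s + 1) → ℕ) i = 0 := by simp
      rw [this]
      exact ⟨hF.1, fun l => hF.2 l⟩
    · intro h
      obtain ⟨R, rfl⟩ := dvd_of_res (s + 1) h
      have h1 := hF.1.totalDegree hF0
      rw [totalDegree_mul_of_isDomain (X_ne_zero 0) (right_ne_zero_of_mul hF0),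
        totalDegree_X] at h1
      omega
    · have h1 : F = C (coeff 0 F) := by
        have h2 := hF.1.totalDegree hF0
        exact totalDegree_eq_zero_iff_eq_C.1 h2
      rw [h1]
      have h2 : res (s + 1) (C (coeff 0 F)) = C (coeff 0 F) := by
        unfold res
        rw [aeval_C]
        rfl
      rw [h2, MonomialOrder.degree_C]
      rfl
  | succ e ih =>
    rintro ⟨F, hF, hF0⟩
    by_cases h : res (s + 1) F = 0
    · obtain ⟨R, rfl⟩ := dvd_of_res (s + 1) h
      obtain ⟨β, h1, h2⟩ := ih ⟨R, ⟨hom_div hF.1, fun l =>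
        van_div (by rw [eval_X]; exact hp l) (hF.2 l)⟩, right_ne_zero_of_mul hF0⟩
      exact ⟨β, h1, by omega⟩
    · set β : Fin (s + 1) → ℕ := fun i =>
        (MonomialOrder.lex (σ := Fin (s + 1))).degree (res (s + 1) F) i with hβ
      have h3 : ∑ i, β i = e + 1 := by
        have h4 := res_hom (s + 1) (e + 1) hF.1
          ((MonomialOrder.lex (σ := Fin (s + 1))).coeff_degree_ne_zero_iff.2 h)
        rw [Finsupp.weight_apply, Finsupp.sum_fintype _ _ (fun _ => by simp)] at h4
        simpa using h4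
      refine ⟨β, ⟨F, ?_, h, fun i => rfl⟩, h3.le⟩
      rw [h3]
      exact ⟨hF.1, fun l => hF.2 l⟩

end Pool.Agent.H74.BP
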